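import Pool.Agent.U559.QS.Defs

/-!
Lipschitz functions as functionals on the Lipschitz-free space; finitely supported elements.
-/

set_option autoImplicit false
set_option linter.unusedSectionVars false

open Set Topology Filter

universe u v

namespace Pool.Agent.U559.QS

variable {𝕜 : Type v} [RCLike 𝕜] {M : Type u} [MetricSpace M] {o : M}

/-- inclusion of the free space into the dual of `Lip_0(M)` -/
noncomputable def valL : FreeSp 𝕜 M o →ₗᵢ[𝕜] StrongDual 𝕜 (LipO 𝕜 M o) :=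
  (freeSub 𝕜 M o).subtypeₗᵢ

/-- the element `δ_x` of the free space -/
noncomputable def dl (𝕜 : Type v) [RCLike 𝕜] (o x : M) : FreeSp 𝕜 M o :=
  (⟨delta 𝕜 o x, Submodule.le_topologicalClosure _ (Submodule.subset_span ⟨x, rfl⟩)⟩ :
    ↥(freeSub 𝕜 M o))

lemma valL_dl (x : M) : valL (dl 𝕜 o x) = delta 𝕜 o x := rfl

lemma norm_dl_sub_le (x y : M) : ‖dl 𝕜 o x - dl 𝕜 o y‖ ≤ dist x y := by
  rw [← valL.norm_map, map_sub, valL_dl, valL_dl]
  refine ContinuousLinearMap.opNorm_le_bound _ dist_nonneg fun f => ?_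
  have h := f.sub_le x y
  rw [mul_comm] at h
  exact h

lemma dl_base : dl 𝕜 o o = 0 := by
  have h : ‖dl 𝕜 o o‖ ≤ 0 := by
    rw [← valL.norm_map, valL_dl]
    refine ContinuousLinearMap.opNorm_le_bound _ le_rfl fun f => ?_
    rw [delta_apply, LipO.fn_base]
    simp
  exact norm_le_zero_iff.1 h

/-- A Lipschitz function vanishing at the base point defines a functional. -/
lemma exists_functional (g : M → 𝕜) (h0 : g o = 0) (K : ℝ) (hK : 0 ≤ K)
    (h : ∀ x y, ‖g x - g y‖ ≤ K * dist x y) :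
    ∃ F : StrongDual 𝕜 (FreeSp 𝕜 M o), ‖F‖ ≤ K ∧ ∀ x, F (dl 𝕜 o x) = g x := by
  let G : LipO 𝕜 M o := LipO.mk' g h0 K hK h
  have hG : ‖G‖ ≤ K := G.norm_le_of hK h
  refine ⟨LinearMap.mkContinuous
    { toFun := fun y => valL y G
      map_add' := fun a b => by rw [map_add]; rfl
      map_smul' := fun a b => by rw [map_smul]; rfl } K (fun y => ?_), ?_, fun x => rfl⟩
  · have h1 := (valL y).le_opNorm G
    rw [valL.norm_map] at h1
    calc ‖valL y G‖ ≤ ‖y‖ * ‖G‖ := h1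
      _ ≤ ‖y‖ * K := mul_le_mul_of_nonneg_left hG (norm_nonneg _)
      _ = K * ‖y‖ := mul_comm _ _
  · exact LinearMap.mkContinuous_norm_le _ hK _

/-- the finitely supported element `∑ c(b) δ_b` -/
noncomputable def el (𝕜 : Type v) [RCLike 𝕜] (o : M) (A : Finset M) (c : M → 𝕜) :
    FreeSp 𝕜 M o := ∑ b ∈ A, c b • dl 𝕜 o b

lemma map_el (F : StrongDual 𝕜 (FreeSp 𝕜 M o)) (A : Finset M) (c : M → 𝕜) :
    F (el 𝕜 o A c) = ∑ b ∈ A, c b * F (dl 𝕜 o b) := by
  rw [el, map_sum]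
  exact Finset.sum_congr rfl fun b _ => by rw [map_smul, smul_eq_mul]

open Classical in
/-- Finitely supported elements are dense. -/
lemma approx (y : FreeSp 𝕜 M o) {ε : ℝ} (hε : 0 < ε) :
    ∃ (A : Finset M) (c : M → 𝕜), o ∉ A ∧ ‖y - el 𝕜 o A c‖ ≤ ε := by
  have h1 : valL y ∈ closure (Submodule.span 𝕜 (Set.range (delta 𝕜 (M := M) o)) :
      Set (StrongDual 𝕜 (LipO 𝕜 M o))) := y.2
  rw [Metric.mem_closure_iff] at h1
  obtain ⟨s, hs, hd⟩ := h1 ε hε
  obtain ⟨c, hc⟩ := Finsupp.mem_span_range_iff_exists_finsupp.1 hs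
  refine ⟨c.support.erase o, c, Finset.notMem_erase _ _, ?_⟩
  rw [← valL.norm_map, map_sub, ← dist_eq_norm]
  have h2 : valL (el 𝕜 o (c.support.erase o) c) = s := by
    rw [el, map_sum, ← hc, Finsupp.sum]
    have h3 : ∀ b ∈ c.support.erase o, valL (c b • dl 𝕜 o b) = c b • delta 𝕜 o b := by
      intro b _
      rw [map_smul, valL_dl]
    rw [Finset.sum_congr rfl h3]
    have h4 : delta 𝕜 o o = 0 := by
      rw [← valL_dl, dl_base, map_zero]
    apply Finset.sum_subset (Finset.erase_subset _ _)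
    intro b hb hb'
    have h5 : b = o := by
      by_contra hne
      exact hb' (Finset.mem_erase.2 ⟨hne, hb⟩)
    rw [h5, h4]
    exact smul_zero (A := StrongDual 𝕜 (LipO 𝕜 M o)) (c o)
  rw [h2]
  exact hd.le

open Classical in
/-- In a uniformly separated space the free norm dominates the `ℓ_1` norm. -/
lemma ell_one {θ : ℝ} (hθ : 0 < θ) (hsep : ∀ x y : M, x ≠ y → θ ≤ dist x y)
    (A : Finset M) (hA : o ∉ A) (c : M → 𝕜) :
    ∑ b ∈ A, ‖c b‖ ≤ 2 / θ * ‖el 𝕜 o A c‖ := by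
  choose u hu1 hu2 using fun b => RCLike.exists_norm_eq_mul_self (c b)
  let g : M → 𝕜 := fun b => if b ∈ A then ((θ / 2 : ℝ) : 𝕜) * u b else 0
  have hg : ∀ b, ‖g b‖ ≤ θ / 2 := by
    intro b
    simp only [g]
    split_ifs
    · rw [norm_mul, hu1, mul_one, RCLike.norm_ofReal, abs_of_pos (by positivity)]
    · rw [norm_zero]; positivity
  obtain ⟨F, hF, hFg⟩ := exists_functional (o := o) g (by simp [g, hA]) 1 zero_le_one (by
    intro x y
    rcases eq_or_ne x y with rfl | hxy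
    · simp
    · have h1 := hg x
      have h2 := hg y
      have h3 := hsep x y hxy
      have h4 := norm_sub_le (g x) (g y)
      linarith)
  have h1 : F (el 𝕜 o A c) = (((θ / 2) * ∑ b ∈ A, ‖c b‖ : ℝ) : 𝕜) := by
    rw [map_el]
    push_cast
    rw [Finset.mul_sum]
    refine Finset.sum_congr rfl fun b hb => ?_
    rw [hFg]
    simp only [g, if_pos hb]
    have h := hu2 b
    push_cast
    linear_combination (-(θ : 𝕜) / 2) * h
  have h2 : ‖F (el 𝕜 o A c)‖ = (θ / 2) * ∑ b ∈ A, ‖c b‖ := by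
    rw [h1, RCLike.norm_ofReal, abs_of_nonneg]
    have : 0 ≤ ∑ b ∈ A, ‖c b‖ := Finset.sum_nonneg fun _ _ => norm_nonneg _
    positivity
  have h3 : ‖F (el 𝕜 o A c)‖ ≤ ‖el 𝕜 o A c‖ := by
    calc _ ≤ ‖F‖ * ‖el 𝕜 o A c‖ := F.le_opNorm _
      _ ≤ 1 * ‖el 𝕜 o A c‖ := mul_le_mul_of_nonneg_right hF (norm_nonneg _)
      _ = _ := one_mul _
  rw [h2] at h3
  rw [div_mul_eq_mul_div, le_div_iff₀ hθ]
  linarith

/-- Extension of bounded Lipschitz functions. -/
lemma ext_scalar (S : Set M) (g : M → 𝕜) {L H : ℝ} (hL : 0 ≤ L) (hH : 0 ≤ H)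
    (h : ∀ x ∈ S, ∀ y ∈ S, ‖g x - g y‖ ≤ L * dist x y) (hb : ∀ x ∈ S, ‖g x‖ ≤ H) :
    ∃ G : M → 𝕜, (∀ x ∈ S, G x = g x) ∧ (∀ x y, ‖G x - G y‖ ≤ 2 * L * dist x y) ∧
      ∀ x, ‖G x‖ ≤ 2 * H := by
  have key : ∀ p : 𝕜 → ℝ, (∀ z w, |p z - p w| ≤ ‖z - w‖) → (∀ z, |p z| ≤ ‖z‖) →
      ∃ G : M → ℝ, (∀ x ∈ S, G x = p (g x)) ∧ (∀ x y, |G x - G y| ≤ L * dist x y) ∧
        ∀ x, |G x| ≤ H := by
    intro p hp hp'
    have h1 : LipschitzOnWith ⟨L, hL⟩ (fun x => p (g x)) S := by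
      apply LipschitzOnWith.of_dist_le_mul
      intro x hx y hy
      rw [Real.dist_eq]
      exact (hp _ _).trans (h x hx y hy)
    obtain ⟨G0, hG0, hE⟩ := h1.extend_real
    refine ⟨fun x => max (-H) (min H (G0 x)), fun x hx => ?_, fun x y => ?_, fun x => ?_⟩
    · have h2 : G0 x = p (g x) := (hE hx).symm
      have h3 := (hp' (g x)).trans (hb x hx)
      rw [abs_le] at h3
      change max (-H) (min H (G0 x)) = _
      rw [h2, min_eq_right h3.2, max_eq_right h3.1]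
    · have h2 := hG0.dist_le_mul x y
      rw [Real.dist_eq] at h2
      have h3 : |max (-H) (min H (G0 x)) - max (-H) (min H (G0 y))| ≤
          |min H (G0 x) - min H (G0 y)| := by
        have := abs_max_sub_max_le_max (-H) (min H (G0 x)) (-H) (min H (G0 y))
        simpa using this
      have h4 : |min H (G0 x) - min H (G0 y)| ≤ |G0 x - G0 y| := by
        have := abs_min_sub_min_le_max H (G0 x) H (G0 y)
        simpa using this
      exact (h3.trans h4).trans h2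
    · rw [abs_le]
      exact ⟨le_max_left _ _, max_le (by linarith) (min_le_left _ _)⟩
  obtain ⟨G1, h11, h12, h13⟩ := key RCLike.re
    (fun z w => by rw [← map_sub]; exact RCLike.abs_re_le_norm _)
    (fun z => RCLike.abs_re_le_norm _)
  obtain ⟨G2, h21, h22, h23⟩ := key RCLike.im
    (fun z w => by rw [← map_sub]; exact RCLike.abs_im_le_norm _)
    (fun z => RCLike.abs_im_le_norm _)
  have hI : ‖(RCLike.I : 𝕜)‖ ≤ 1 := by
    rcases RCLike.I_eq_zero_or_im_I_eq_one (K := 𝕜) with h0 | h0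
    · rw [h0, norm_zero]; exact zero_le_one
    · exact (RCLike.norm_I_of_ne_zero (by intro hh; rw [hh] at h0; simp at h0)).le
  refine ⟨fun x => (G1 x : 𝕜) + (G2 x : 𝕜) * RCLike.I, fun x hx => ?_, fun x y => ?_,
    fun x => ?_⟩
  · change (G1 x : 𝕜) + (G2 x : 𝕜) * RCLike.I = g x
    rw [h11 x hx, h21 x hx]
    exact RCLike.re_add_im (g x)
  · have h3 : (G1 x : 𝕜) + (G2 x : 𝕜) * RCLike.I - ((G1 y : 𝕜) + (G2 y : 𝕜) * RCLike.I) =
        ((G1 x - G1 y : ℝ) : 𝕜) + ((G2 x - G2 y : ℝ) : 𝕜) * RCLike.I := by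
      push_cast; ring
    change ‖(G1 x : 𝕜) + (G2 x : 𝕜) * RCLike.I - ((G1 y : 𝕜) + (G2 y : 𝕜) * RCLike.I)‖ ≤ _
    rw [h3]
    calc _ ≤ ‖((G1 x - G1 y : ℝ) : 𝕜)‖ + ‖((G2 x - G2 y : ℝ) : 𝕜) * RCLike.I‖ :=
          norm_add_le _ _
      _ ≤ |G1 x - G1 y| + |G2 x - G2 y| * 1 := by
          rw [norm_mul, RCLike.norm_ofReal, RCLike.norm_ofReal]
          gcongr
      _ ≤ _ := by
          have := h12 x y
          have := h22 x y
          linarith
  · change ‖(G1 x : 𝕜) + (G2 x : 𝕜) * RCLike.I‖ ≤ _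
    calc _ ≤ ‖((G1 x : ℝ) : 𝕜)‖ + ‖((G2 x : ℝ) : 𝕜) * RCLike.I‖ := norm_add_le _ _
      _ ≤ |G1 x| + |G2 x| * 1 := by
          rw [norm_mul, RCLike.norm_ofReal, RCLike.norm_ofReal]
          gcongr
      _ ≤ _ := by
          have := h13 x
          have := h23 x
          linarith

end Pool.Agent.U559.QS
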