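import Mathlib

/-!
A selection lemma for arrays of nonnegative numbers with bounded row sums.
-/

set_option autoImplicit false

open Set Topology Filter

namespace Pool.Agent.U559.QS

lemma geo (η : ℝ) (j : ℕ) : ∑ i ∈ Finset.range j, η / 2 ^ (i + 1) = η * (1 - 1 / 2 ^ j) := by
  induction j with
  | zero => simp
  | succ j ih =>
    rw [Finset.sum_range_succ, ih, pow_succ]
    field_simp
    ring

lemma sel (m : ℕ → ℕ → ℝ) (hm : ∀ l k, 0 ≤ m l k) (C : ℝ)
    (hC : ∀ l, ∀ S : Finset ℕ, (∀ k ∈ S, k < l) → ∑ k ∈ S, m l k ≤ C) {η : ℝ} (hη : 0 < η) :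
    ∃ φ : ℕ → ℕ, StrictMono φ ∧ ∀ j, ∑ i ∈ Finset.range j, m (φ j) (φ i) ≤ η := by
  let U : Ultrafilter ℕ := hyperfilter ℕ
  have hU : (U : Filter ℕ) ≤ atTop := by
    have h1 : (U : Filter ℕ) ≤ cofinite := hyperfilter_le_cofinite
    rwa [Nat.cofinite_eq_atTop] at h1
  have hp : ∀ k, ∃ p : ℝ, 0 ≤ p ∧ Tendsto (fun l => m l k) U (𝓝 p) := by
    intro k
    have h1 : Icc (0 : ℝ) C ∈ U.map (fun l => m l k) := by
      change ∀ᶠ l in (U : Filter ℕ), m l k ∈ Icc (0 : ℝ) C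
      have h2 : ∀ᶠ l in (U : Filter ℕ), k < l := hU (eventually_gt_atTop k)
      filter_upwards [h2] with l hl
      have h3 := hC l {k} (by simpa using hl)
      rw [Finset.sum_singleton] at h3
      exact ⟨hm l k, h3⟩
    obtain ⟨p, hp, hp'⟩ := isCompact_Icc.ultrafilter_le_nhds' _ h1
    exact ⟨p, hp.1, hp'⟩
  choose p hp0 hp using hp
  have hsum : ∀ S : Finset ℕ, ∑ k ∈ S, p k ≤ C := by
    intro S
    have h1 : Tendsto (fun l => ∑ k ∈ S, m l k) U (𝓝 (∑ k ∈ S, p k)) :=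
      tendsto_finsetSum _ fun k _ => hp k
    refine le_of_tendsto h1 ?_
    have h2 : ∀ᶠ l in (U : Filter ℕ), ∀ k ∈ S, k < l := by
      have : ∀ᶠ l in (atTop : Filter ℕ), ∀ k ∈ S, k < l := by
        rw [S.eventually_all]
        exact fun k _ => eventually_gt_atTop k
      exact hU this
    filter_upwards [h2] with l hl
    exact hC l S hl
  have hsm : Summable p := summable_of_sum_le hp0 hsum
  have hp1 : Tendsto p atTop (𝓝 0) := hsm.tendsto_atTop_zero
  let P : ℕ × ℕ → Prop := fun x => p x.1 < η / 2 ^ (x.2 + 1)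
  let r : ℕ × ℕ → ℕ × ℕ → Prop := fun x y =>
    x.1 < y.1 ∧ x.2 < y.2 ∧ m y.1 x.1 < η / 2 ^ (x.2 + 1)
  obtain ⟨f, -, hr⟩ := exists_seq_of_forall_finset_exists P r (by
    intro s hs
    let i' := s.sup Prod.snd + 1
    have h1 : ∀ᶠ k in (U : Filter ℕ), p k < η / 2 ^ (i' + 1) :=
      hU (hp1.eventually_lt_const (by positivity))
    have h2 : ∀ᶠ k in (U : Filter ℕ), ∀ x ∈ s, x.1 < k ∧ m k x.1 < η / 2 ^ (x.2 + 1) := by
      rw [s.eventually_all]
      intro x hx
      have h3 : ∀ᶠ k in (U : Filter ℕ), m k x.1 < η / 2 ^ (x.2 + 1) :=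
        (hp x.1).eventually_lt_const (hs x hx)
      have h4 : ∀ᶠ k in (U : Filter ℕ), x.1 < k := hU (eventually_gt_atTop _)
      filter_upwards [h3, h4] with k h3 h4
      exact ⟨h4, h3⟩
    obtain ⟨k, hk1, hk2⟩ := (h1.and h2).exists
    refine ⟨(k, i'), hk1, fun x hx => ⟨(hk2 x hx).1, ?_, (hk2 x hx).2⟩⟩
    exact Nat.lt_succ_of_le (Finset.le_sup (f := Prod.snd) hx))
  have hi : ∀ n, n ≤ (f n).2 := by
    intro n
    induction n with
    | zero => exact Nat.zero_le _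
    | succ n ih => exact lt_of_le_of_lt ih (hr n (n + 1) (Nat.lt_succ_self n)).2.1
  refine ⟨fun n => (f n).1, strictMono_nat_of_lt_succ fun n =>
    (hr n (n + 1) (Nat.lt_succ_self n)).1, fun j => ?_⟩
  calc ∑ i ∈ Finset.range j, m (f j).1 (f i).1
      ≤ ∑ i ∈ Finset.range j, η / 2 ^ (i + 1) := by
        refine Finset.sum_le_sum fun i hi' => ?_
        refine (hr i j (Finset.mem_range.1 hi')).2.2.le.trans ?_
        apply div_le_div_of_nonneg_left hη.le (by positivity)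
        exact pow_le_pow_right₀ (by norm_num) (by have := hi i; omega)
    _ = η * (1 - 1 / 2 ^ j) := geo η j
    _ ≤ η := by
        have : (0 : ℝ) ≤ 1 / 2 ^ j := by positivity
        nlinarith

end Pool.Agent.U559.QS
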