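import Pool.Agent.U559.QS.Basic
import Pool.Agent.U559.QS.Sel

/-!
The gliding hump for bounded test functions.
-/

set_option autoImplicit false
set_option linter.unusedSectionVars false

open Set Topology Filter

universe u v

namespace Pool.Agent.U559.QS

variable {𝕜 : Type v} [RCLike 𝕜] {M : Type u} [MetricSpace M] {o : M}

/-- the points which are close to the support `A` relative to the size of `f` -/
def near (A : Finset M) (f : M → 𝕜) : Set M := {x | ∃ a ∈ A, 4 * dist a x < ‖f a‖}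

open Classical in
lemma count {θ : ℝ} (hθ : 0 < θ) (hsep : ∀ x y : M, x ≠ y → θ ≤ dist x y)
    (A : ℕ → Finset M) (f : ℕ → M → 𝕜) (hL : ∀ k x y, ‖f k x - f k y‖ ≤ dist x y)
    (hz : ∀ j k, j < k → ∀ b ∈ A j, f k b = 0) {H : ℝ} (hH : ∀ k x, ‖f k x‖ ≤ H) (b : M)
    (T : Finset ℕ) (hT : ∀ k ∈ T, b ∈ near (A k) (f k)) :
    (T.card : ℝ) * θ ≤ H + θ := by
  have hH0 : 0 ≤ H := (norm_nonneg _).trans (hH 0 b)
  have : Nonempty M := ⟨b⟩
  choose! a ha using hT
  let r : ℕ → ℝ := fun k => ‖f k (a k)‖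
  have hr : ∀ i ∈ T, ∀ j ∈ T, i < j → r j + θ ≤ r i := by
    intro i hi j hj hij
    obtain ⟨hi1, hi2⟩ := ha i hi
    obtain ⟨hj1, hj2⟩ := ha j hj
    have h0 : f j (a i) = 0 := hz i j hij _ hi1
    have h1 : r j ≤ dist (a i) (a j) := by
      have := hL j (a j) (a i)
      rw [h0, sub_zero, dist_comm] at this
      exact this
    have h2 : dist (a i) (a j) ≤ dist (a i) b + dist (a j) b := dist_triangle_right _ _ _
    have hri : 4 * dist (a i) b < r i := hi2
    have hrj : 4 * dist (a j) b < r j := hj2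
    have h3 : a i ≠ b := by
      intro he
      rw [he] at h1 h2
      have h4 : r j ≤ dist (a j) b := by rwa [dist_comm] at h1
      have h5 : 0 ≤ dist (a j) b := dist_nonneg
      linarith
    have h4 := hsep _ _ h3
    linarith
  have key : ∀ S : Finset ℕ, S ⊆ T → ∀ n ∈ T, (∀ k ∈ S, k < n) →
      r n + (S.card : ℝ) * θ ≤ H := by
    intro S
    induction S using Finset.induction_on_max with
    | empty =>
      intro _ n _ _
      simp only [Finset.card_empty, Nat.cast_zero, zero_mul, add_zero]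
      exact hH _ _
    | insert k S hk ih =>
      intro hS n hn hlt
      have hkT : k ∈ T := hS (Finset.mem_insert_self _ _)
      have h1 := ih (fun x hx => hS (Finset.mem_insert_of_mem hx)) k hkT hk
      have h2 := hr k hkT n hn (hlt k (Finset.mem_insert_self _ _))
      have h3 : k ∉ S := fun h => lt_irrefl _ (hk k h)
      rw [Finset.card_insert_of_notMem h3]
      push_cast
      linarith
  rcases T.eq_empty_or_nonempty with rfl | hne
  · simp only [Finset.card_empty, Nat.cast_zero, zero_mul]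
    linarith
  · have h1 := key (T.erase (T.max' hne)) (Finset.erase_subset _ _) (T.max' hne)
      (T.max'_mem hne) (fun k hk => lt_of_le_of_ne (T.le_max' k (Finset.mem_of_mem_erase hk))
        (Finset.ne_of_mem_erase hk))
    have h2 : 0 ≤ r (T.max' hne) := norm_nonneg _
    have h3 : ((T.erase (T.max' hne)).card : ℝ) = (T.card : ℝ) - 1 := by
      rw [Finset.card_erase_of_mem (T.max'_mem hne), Nat.cast_sub
        (Finset.one_le_card.2 hne), Nat.cast_one]
    rw [h3] at h1
    linarith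

open Classical in
/-- The gliding hump for bounded test functions. -/
theorem bdd {θ : ℝ} (hθ : 0 < θ) (hsep : ∀ x y : M, x ≠ y → θ ≤ dist x y)
    (A : ℕ → Finset M) (hA : ∀ k, o ∉ A k) (c : ℕ → M → 𝕜) {B : ℝ}
    (hB : ∀ k, ‖el 𝕜 o (A k) (c k)‖ ≤ B)
    (f : ℕ → M → 𝕜) (h0 : ∀ k, f k o = 0) (hL : ∀ k x y, ‖f k x - f k y‖ ≤ dist x y)
    (hz : ∀ j k, j < k → ∀ b ∈ A j, f k b = 0) {H : ℝ} (hH : ∀ k x, ‖f k x‖ ≤ H)
    {ε : ℝ} (hε : 0 < ε) :
    ∃ φ : ℕ → ℕ, StrictMono φ ∧ ∀ σ : ℕ → 𝕜, (∀ i, ‖σ i‖ ≤ 1) →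
      ∃ G : M → 𝕜, G o = 0 ∧ (∀ x y, ‖G x - G y‖ ≤ 10 * dist x y) ∧
        ∀ i, ‖∑ b ∈ A (φ i), c (φ i) b * G b -
          σ i * ∑ b ∈ A (φ i), c (φ i) b * f (φ i) b‖ ≤ ε := by
  have hH0 : 0 ≤ H := (norm_nonneg _).trans (hH 0 o)
  let m : ℕ → ℕ → ℝ := fun l k => ∑ b ∈ (A l).filter (fun b => b ∈ near (A k) (f k)), ‖c l b‖
  have hm : ∀ l k, 0 ≤ m l k := fun l k => Finset.sum_nonneg fun _ _ => norm_nonneg _
  have hC : ∀ l, ∀ S : Finset ℕ, (∀ k ∈ S, k < l) →
      ∑ k ∈ S, m l k ≤ (H / θ + 1) * (2 / θ * B) := by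
    intro l S _
    have h1 : ∑ k ∈ S, m l k =
        ∑ b ∈ A l, ((S.filter (fun k => b ∈ near (A k) (f k))).card : ℝ) * ‖c l b‖ := by
      simp only [m, Finset.sum_filter]
      rw [Finset.sum_comm]
      refine Finset.sum_congr rfl fun b _ => ?_
      rw [← Finset.sum_filter, Finset.sum_const, nsmul_eq_mul]
    rw [h1]
    have h2 : ∀ b ∈ A l, ((S.filter (fun k => b ∈ near (A k) (f k))).card : ℝ) * ‖c l b‖ ≤
        (H / θ + 1) * ‖c l b‖ := by
      intro b _
      apply mul_le_mul_of_nonneg_right _ (norm_nonneg _)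
      have h3 := count hθ hsep A f hL hz hH b (S.filter (fun k => b ∈ near (A k) (f k)))
        (fun k hk => (Finset.mem_filter.1 hk).2)
      rw [← le_div_iff₀ hθ] at h3
      refine h3.trans (le_of_eq ?_)
      field_simp
    refine (Finset.sum_le_sum h2).trans ?_
    rw [← Finset.mul_sum]
    apply mul_le_mul_of_nonneg_left _ (by positivity)
    refine (ell_one hθ hsep (A l) (hA l) (c l)).trans ?_
    exact mul_le_mul_of_nonneg_left (hB l) (by positivity)
  have hη : 0 < ε / (3 * H + 1) := by positivity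
  obtain ⟨φ, hφ, hsel⟩ := sel m hm _ hC hη
  refine ⟨φ, hφ, fun σ hσ => ?_⟩
  let V : ℕ → Set M := fun j => {x | ∃ i, i < j ∧ x ∈ near (A (φ i)) (f (φ i))}
  let g : M → 𝕜 := fun b =>
    if h : ∃ i, b ∈ A (φ i) ∧ b ∉ V i then σ h.choose * f (φ h.choose) b else 0
  have huni : ∀ i j b, i < j → b ∈ A (φ i) → b ∈ A (φ j) → b ∉ V j →
      f (φ i) b = 0 ∧ f (φ j) b = 0 := by
    intro i j b hij hi hj hV
    refine ⟨?_, hz _ _ (hφ hij) b hi⟩
    by_contra hne
    apply hV
    refine ⟨i, hij, b, hi, ?_⟩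
    rw [dist_self, mul_zero]
    exact norm_pos_iff.2 hne
  have hg : ∀ i b, b ∈ A (φ i) → b ∉ V i → g b = σ i * f (φ i) b := by
    intro i b hb hbV
    have hex : ∃ i, b ∈ A (φ i) ∧ b ∉ V i := ⟨i, hb, hbV⟩
    have h1 : g b = σ hex.choose * f (φ hex.choose) b := dif_pos hex
    rw [h1]
    obtain ⟨h2, h3⟩ := hex.choose_spec
    rcases lt_trichotomy i hex.choose with h | h | h
    · obtain ⟨h4, h5⟩ := huni _ _ b h hb h2 h3
      rw [h4, h5, mul_zero, mul_zero]
    · rw [← h]
    · obtain ⟨h4, h5⟩ := huni _ _ b h h2 hb hbV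
      rw [h4, h5, mul_zero, mul_zero]
  have hgo : g o = 0 := by
    have : ¬ ∃ i, o ∈ A (φ i) ∧ o ∉ V i := fun ⟨i, hi, _⟩ => hA _ hi
    exact dif_neg this
  let S : Set M := insert o {b | ∃ i, b ∈ A (φ i) ∧ b ∉ V i}
  have hlip1 : ∀ i x, ‖σ i * f (φ i) x‖ ≤ ‖f (φ i) x‖ := by
    intro i x
    rw [norm_mul]
    exact mul_le_of_le_one_left (norm_nonneg _) (hσ i)
  have hlip2 : ∀ i j x y, i < j → x ∈ A (φ i) → y ∉ V j →
      ‖σ i * f (φ i) x - σ j * f (φ j) y‖ ≤ 5 * dist x y := by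
    intro i j x y hij hx hyV
    have h1 : ‖f (φ i) x‖ ≤ 4 * dist x y := by
      by_contra hc
      push Not at hc
      exact hyV ⟨i, hij, x, hx, hc⟩
    have h2 : ‖f (φ j) y‖ ≤ dist x y := by
      have h3 := hL (φ j) y x
      rw [hz _ _ (hφ hij) x hx, sub_zero, dist_comm] at h3
      exact h3
    have h3 := norm_sub_le (σ i * f (φ i) x) (σ j * f (φ j) y)
    have h4 := hlip1 i x
    have h5 := hlip1 j y
    linarith
  have hlip3 : ∀ x ∈ S, ∀ y ∈ S, ‖g x - g y‖ ≤ 5 * dist x y := by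
    have haux : ∀ y ∈ S, ‖g y‖ ≤ 5 * dist y o := by
      intro y hy
      rcases hy with rfl | ⟨j, hy1, hy2⟩
      · rw [hgo]; simp
      · rw [hg j y hy1 hy2]
        have h1 := hL (φ j) y o
        rw [h0, sub_zero] at h1
        have h2 := hlip1 j y
        have h3 : 0 ≤ dist y o := dist_nonneg
        linarith
    intro x hx y hy
    rcases hx with rfl | ⟨i, hx1, hx2⟩
    · rw [hgo, zero_sub, norm_neg, dist_comm]
      exact haux y hy
    · rcases hy with rfl | ⟨j, hy1, hy2⟩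
      · rw [hgo, sub_zero]
        exact haux x (Or.inr ⟨i, hx1, hx2⟩)
      · rw [hg i x hx1 hx2, hg j y hy1 hy2]
        rcases lt_trichotomy i j with h | h | h
        · exact hlip2 i j x y h hx1 hy2
        · subst h
          rw [← mul_sub, norm_mul]
          have h1 := hL (φ i) x y
          have h2 : 0 ≤ dist x y := dist_nonneg
          calc _ ≤ 1 * dist x y := mul_le_mul (hσ i) h1 (norm_nonneg _) zero_le_one
            _ ≤ 5 * dist x y := by linarith
        · rw [norm_sub_rev, dist_comm]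
          exact hlip2 j i y x h hy1 hx2
  have hgb : ∀ x, ‖g x‖ ≤ H := by
    intro x
    by_cases hex : ∃ i, x ∈ A (φ i) ∧ x ∉ V i
    · have h1 : g x = σ hex.choose * f (φ hex.choose) x := dif_pos hex
      rw [h1]
      exact (hlip1 _ _).trans (hH _ _)
    · have h1 : g x = 0 := dif_neg hex
      rw [h1, norm_zero]
      exact hH0
  obtain ⟨G, hG1, hG2, hG3⟩ := ext_scalar S g (by norm_num : (0 : ℝ) ≤ 5) hH0 hlip3
    (fun x _ => hgb x)
  refine ⟨G, ?_, fun x y => ?_, fun i => ?_⟩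
  · rw [hG1 o (mem_insert _ _), hgo]
  · have := hG2 x y
    linarith
  · have h1 : ∑ b ∈ A (φ i), c (φ i) b * G b - σ i * ∑ b ∈ A (φ i), c (φ i) b * f (φ i) b =
        ∑ b ∈ A (φ i), c (φ i) b * (G b - σ i * f (φ i) b) := by
      rw [Finset.mul_sum, ← Finset.sum_sub_distrib]
      exact Finset.sum_congr rfl fun b _ => by ring
    rw [h1]
    have h2 : ∀ b ∈ A (φ i), ‖c (φ i) b * (G b - σ i * f (φ i) b)‖ ≤
        ∑ j ∈ Finset.range i, if b ∈ near (A (φ j)) (f (φ j)) then 3 * H * ‖c (φ i) b‖ else 0 := by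
      intro b hb
      by_cases hV : b ∈ V i
      · obtain ⟨j, hj, hbj⟩ := hV
        have h3 : ‖c (φ i) b * (G b - σ i * f (φ i) b)‖ ≤ 3 * H * ‖c (φ i) b‖ := by
          rw [norm_mul, mul_comm]
          apply mul_le_mul_of_nonneg_right _ (norm_nonneg _)
          have h4 := norm_sub_le (G b) (σ i * f (φ i) b)
          have h5 := hG3 b
          have h6 := (hlip1 i b).trans (hH _ _)
          linarith
        have h5 : ∀ j ∈ Finset.range i,
            0 ≤ (if b ∈ near (A (φ j)) (f (φ j)) then 3 * H * ‖c (φ i) b‖ else 0) := by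
          intro j _
          split_ifs
          · positivity
          · exact le_rfl
        have h6 := Finset.single_le_sum (f := fun j =>
          if b ∈ near (A (φ j)) (f (φ j)) then 3 * H * ‖c (φ i) b‖ else 0)
          h5 (Finset.mem_range.2 hj)
        refine h3.trans (le_trans (le_of_eq ?_) h6)
        exact (if_pos hbj).symm
      · rw [hG1 b (Or.inr ⟨i, hb, hV⟩), hg i b hb hV, sub_self, mul_zero, norm_zero]
        refine Finset.sum_nonneg fun j _ => ?_
        split_ifs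
        · positivity
        · exact le_rfl
    refine (norm_sum_le_of_le _ h2).trans ?_
    rw [Finset.sum_comm]
    have h3 : ∀ j ∈ Finset.range i, ∑ b ∈ A (φ i),
        (if b ∈ near (A (φ j)) (f (φ j)) then 3 * H * ‖c (φ i) b‖ else 0) =
        3 * H * m (φ i) (φ j) := by
      intro j _
      simp only [m]
      rw [Finset.mul_sum, Finset.sum_filter]
    rw [Finset.sum_congr rfl h3, ← Finset.mul_sum]
    have h4 := hsel i
    calc 3 * H * ∑ j ∈ Finset.range i, m (φ i) (φ j) ≤ 3 * H * (ε / (3 * H + 1)) :=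
          mul_le_mul_of_nonneg_left h4 (by positivity)
      _ ≤ ε := by
          rw [← mul_div_assoc, div_le_iff₀ (by positivity)]
          nlinarith

end Pool.Agent.U559.QS
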