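import Mathlib

/-!
The Lipschitz-free space of a pointed metric space, over `𝕜 = ℝ` or `ℂ`.
-/

set_option autoImplicit false
set_option linter.unusedSectionVars false

open Set Topology Filter

universe u v

namespace Pool.Agent.U559.QS

/-- The vector space of scalar-valued Lipschitz functions on `M` vanishing at the base point `o`. -/
def lipSub (𝕜 : Type v) [RCLike 𝕜] (M : Type u) [MetricSpace M] (o : M) :
    Submodule 𝕜 (M → 𝕜) where
  carrier := {f | f o = 0 ∧ ∃ K : ℝ, 0 ≤ K ∧ ∀ x y, ‖f x - f y‖ ≤ K * dist x y}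
  zero_mem' := ⟨rfl, 0, le_rfl, fun x y => by simp⟩
  add_mem' := by
    rintro f g ⟨hf, K, hK, hfK⟩ ⟨hg, L, hL, hgL⟩
    refine ⟨by simp [hf, hg], K + L, by positivity, fun x y => ?_⟩
    have h1 := hfK x y
    have h2 := hgL x y
    have h3 : (f + g) x - (f + g) y = (f x - f y) + (g x - g y) := by
      simp only [Pi.add_apply]; abel
    rw [h3]
    calc _ ≤ ‖f x - f y‖ + ‖g x - g y‖ := norm_add_le _ _
      _ ≤ _ := by rw [add_mul]; exact add_le_add h1 h2
  smul_mem' := by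
    rintro c f ⟨hf, K, hK, hfK⟩
    refine ⟨by simp [hf], ‖c‖ * K, by positivity, fun x y => ?_⟩
    have h1 := hfK x y
    have h3 : (c • f) x - (c • f) y = c • (f x - f y) := by
      simp only [Pi.smul_apply, smul_sub]
    rw [h3, norm_smul, mul_assoc]
    exact mul_le_mul_of_nonneg_left h1 (norm_nonneg _)

/-- `LipO 𝕜 M o`: the space `Lip_0(M)` of Lipschitz functions `M → 𝕜` vanishing at `o`, normed
by the least Lipschitz constant. -/
def LipO (𝕜 : Type v) [RCLike 𝕜] (M : Type u) [MetricSpace M] (o : M) : Type (max u v) :=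
  ↥(lipSub 𝕜 M o)

variable {𝕜 : Type v} [RCLike 𝕜] {M : Type u} [MetricSpace M] {o : M}

namespace LipO

/-- The underlying function. -/
def fn (f : LipO 𝕜 M o) : M → 𝕜 := f.1

section raw

/-- pointwise addition -/
local instance lipACG : AddCommGroup (LipO 𝕜 M o) := Submodule.addCommGroup (lipSub 𝕜 M o)
/-- pointwise scalar multiplication -/
local instance lipMod : Module 𝕜 (LipO 𝕜 M o) := Submodule.module (lipSub 𝕜 M o)

/-- The norm: the least Lipschitz constant. -/
noncomputable instance : Norm (LipO 𝕜 M o) :=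
  ⟨fun f => sInf {K : ℝ | 0 ≤ K ∧ ∀ x y, ‖f.fn x - f.fn y‖ ≤ K * dist x y}⟩

theorem ext {f g : LipO 𝕜 M o} (h : ∀ x, f.fn x = g.fn x) : f = g :=
  Subtype.ext (funext h)

theorem fn_add' (f g : LipO 𝕜 M o) (x : M) : (f + g).fn x = f.fn x + g.fn x := rfl
theorem fn_smul' (c : 𝕜) (f : LipO 𝕜 M o) (x : M) : (c • f).fn x = c • f.fn x := rfl
theorem fn_zero' (x : M) : (0 : LipO 𝕜 M o).fn x = 0 := rfl
@[simp] theorem fn_base (f : LipO 𝕜 M o) : f.fn o = 0 := f.2.1

/-- Constructor. -/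
def mk' (f : M → 𝕜) (h0 : f o = 0) (K : ℝ) (hK : 0 ≤ K)
    (h : ∀ x y, ‖f x - f y‖ ≤ K * dist x y) : LipO 𝕜 M o := ⟨f, h0, K, hK, h⟩

@[simp] theorem fn_mk (f : M → 𝕜) (h0 : f o = 0) (K : ℝ) (hK : 0 ≤ K)
    (h : ∀ x y, ‖f x - f y‖ ≤ K * dist x y) (x : M) :
    (mk' f h0 K hK h : LipO 𝕜 M o).fn x = f x := rfl

theorem set_nonempty (f : LipO 𝕜 M o) :
    {K : ℝ | 0 ≤ K ∧ ∀ x y, ‖f.fn x - f.fn y‖ ≤ K * dist x y}.Nonempty := by
  obtain ⟨K, hK, h⟩ := f.2.2
  exact ⟨K, hK, h⟩

theorem norm_le_of' (f : LipO 𝕜 M o) {K : ℝ} (hK : 0 ≤ K)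
    (h : ∀ x y, ‖f.fn x - f.fn y‖ ≤ K * dist x y) : ‖f‖ ≤ K :=
  csInf_le ⟨0, fun _ h => h.1⟩ ⟨hK, h⟩

theorem norm_nonneg' (f : LipO 𝕜 M o) : 0 ≤ ‖f‖ :=
  le_csInf f.set_nonempty fun _ h => h.1

theorem sub_le' (f : LipO 𝕜 M o) (x y : M) : ‖f.fn x - f.fn y‖ ≤ ‖f‖ * dist x y := by
  rcases eq_or_ne x y with rfl | hxy
  · simp
  · have hd : 0 < dist x y := dist_pos.2 hxy
    rw [← div_le_iff₀ hd]
    refine le_csInf f.set_nonempty ?_
    rintro K ⟨_, hK⟩
    rw [div_le_iff₀ hd]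
    exact hK x y

theorem core : NormedSpace.Core 𝕜 (LipO 𝕜 M o) where
  norm_nonneg f := f.norm_nonneg'
  norm_smul c f := by
    apply le_antisymm
    · refine norm_le_of' _ (mul_nonneg (norm_nonneg _) f.norm_nonneg') fun x y => ?_
      have h1 := f.sub_le' x y
      have h3 : (c • f).fn x - (c • f).fn y = c • (f.fn x - f.fn y) := by
        simp only [fn_smul', smul_sub]
      rw [h3, norm_smul, mul_assoc]
      exact mul_le_mul_of_nonneg_left h1 (norm_nonneg _)
    · rcases eq_or_ne c 0 with rfl | hc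
      · simp only [norm_zero, zero_mul]; exact norm_nonneg' _
      · have hc' : 0 < ‖c‖ := norm_pos_iff.2 hc
        rw [← le_div_iff₀' hc']
        refine norm_le_of' _ (div_nonneg (norm_nonneg' _) hc'.le) fun x y => ?_
        have h1 := (c • f).sub_le' x y
        have h3 : (c • f).fn x - (c • f).fn y = c • (f.fn x - f.fn y) := by
          simp only [fn_smul', smul_sub]
        rw [h3, norm_smul] at h1
        rw [div_mul_eq_mul_div, le_div_iff₀ hc', mul_comm]
        exact h1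
  norm_triangle f g := by
    refine norm_le_of' _ (add_nonneg f.norm_nonneg' g.norm_nonneg') fun x y => ?_
    have h1 := f.sub_le' x y
    have h2 := g.sub_le' x y
    have h3 : (f + g).fn x - (f + g).fn y = (f.fn x - f.fn y) + (g.fn x - g.fn y) := by
      simp only [fn_add']; abel
    rw [h3]
    calc _ ≤ ‖f.fn x - f.fn y‖ + ‖g.fn x - g.fn y‖ := norm_add_le _ _
      _ ≤ _ := by rw [add_mul]; exact add_le_add h1 h2
  norm_eq_zero_iff f := by
    constructor
    · intro h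
      apply ext
      intro x
      have h1 := f.sub_le' x o
      rw [h, zero_mul, fn_base, sub_zero] at h1
      exact norm_le_zero_iff.1 h1
    · rintro rfl
      apply le_antisymm _ (norm_nonneg' _)
      refine norm_le_of' _ le_rfl fun x y => by simp [fn_zero']

noncomputable instance : NormedAddCommGroup (LipO 𝕜 M o) :=
  NormedAddCommGroup.ofCore (core (𝕜 := 𝕜) (M := M) (o := o))
noncomputable instance : NormedSpace 𝕜 (LipO 𝕜 M o) :=
  NormedSpace.ofCore (core (𝕜 := 𝕜) (M := M) (o := o))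

end raw

theorem norm_le_of (f : LipO 𝕜 M o) {K : ℝ} (hK : 0 ≤ K)
    (h : ∀ x y, ‖f.fn x - f.fn y‖ ≤ K * dist x y) : ‖f‖ ≤ K := norm_le_of' f hK h

theorem sub_le (f : LipO 𝕜 M o) (x y : M) : ‖f.fn x - f.fn y‖ ≤ ‖f‖ * dist x y := sub_le' f x y

end LipO

/-- The evaluation functional `δ_x(f) = f(x)` on `Lip_0(M)`. -/
noncomputable def delta (𝕜 : Type v) [RCLike 𝕜] (o x : M) : StrongDual 𝕜 (LipO 𝕜 M o) :=
  LinearMap.mkContinuous
    { toFun := fun f => f.fn x
      map_add' := fun _ _ => rfl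
      map_smul' := fun _ _ => rfl } (dist x o) (fun f => by
        have h := f.sub_le x o
        rw [LipO.fn_base, sub_zero] at h
        rw [mul_comm]
        exact h)

lemma delta_apply (x : M) (f : LipO 𝕜 M o) : delta 𝕜 o x f = f.fn x := rfl

/-- The closed linear span of the evaluation functionals in the dual of `Lip_0(M)`. -/
noncomputable def freeSub (𝕜 : Type v) [RCLike 𝕜] (M : Type u) [MetricSpace M] (o : M) :
    Submodule 𝕜 (StrongDual 𝕜 (LipO 𝕜 M o)) :=
  (Submodule.span 𝕜 (Set.range (delta 𝕜 o))).topologicalClosure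

/-- The Lipschitz-free space `F(M)`: the closed linear span of the evaluation functionals in the
dual of `Lip_0(M)`, with the norm of this dual. -/
def FreeSp (𝕜 : Type v) [RCLike 𝕜] (M : Type u) [MetricSpace M] (o : M) : Type (max u v) :=
  ↥(freeSub 𝕜 M o)

noncomputable instance : NormedAddCommGroup (FreeSp 𝕜 M o) :=
  (inferInstance : NormedAddCommGroup ↥(freeSub 𝕜 M o))

noncomputable instance : NormedSpace 𝕜 (FreeSp 𝕜 M o) :=
  (inferInstance : NormedSpace 𝕜 ↥(freeSub 𝕜 M o))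

/-- `M` is uniformly separated: `inf {d(x, y) : x ≠ y} > 0`. -/
def UniformlySeparated (M : Type u) [MetricSpace M] : Prop :=
  ∃ θ : ℝ, 0 < θ ∧ ∀ x y : M, x ≠ y → θ ≤ dist x y

end Pool.Agent.U559.QS
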