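import Mathlib

/-!
Quantities measuring weak non-compactness in a Banach space `X` (scalars `𝕜 = ℝ` or `ℂ`).
-/

set_option autoImplicit false

open Filter Topology
open scoped ENNReal

universe u v

namespace Pool.Agent.U559.QS

variable (𝕜 : Type v) [RCLike 𝕜] {X : Type u} [NormedAddCommGroup X] [NormedSpace 𝕜 X]

/-- The canonical image of `x` in the bidual, with the weak* topology. -/
noncomputable def toBi (x : X) : WeakDual 𝕜 (StrongDual 𝕜 X) :=
  StrongDual.toWeakDual (NormedSpace.inclusionInDoubleDual 𝕜 X x)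

/-- The weak* cluster points in the bidual `X**` of a sequence in `X`. -/
def clust (x : ℕ → X) : Set (StrongDual 𝕜 (StrongDual 𝕜 X)) :=
  {a | MapClusterPt (StrongDual.toWeakDual a) atTop (fun n => toBi 𝕜 (x n))}

/-- The distance of an element of `X**` from (the canonical image of) `X`. -/
noncomputable def distX (a : StrongDual 𝕜 (StrongDual 𝕜 X)) : ℝ≥0∞ :=
  Metric.infEDist a (Set.range (NormedSpace.inclusionInDoubleDual 𝕜 X))

/-- `δ(x_n) = sup_{‖f‖ ≤ 1} inf_n sup_{k,l ≥ n} |f(x_k) - f(x_l)|`. -/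
noncomputable def deltaQ (x : ℕ → X) : ℝ≥0∞ :=
  ⨆ (f : StrongDual 𝕜 X) (_ : ‖f‖ ≤ 1), ⨅ n : ℕ, ⨆ (k : ℕ) (_ : n ≤ k) (l : ℕ) (_ : n ≤ l),
    ‖f (x k) - f (x l)‖ₑ

/-- `ca(x_n) = inf_n sup_{k,l ≥ n} ‖x_k - x_l‖`. -/
noncomputable def caQ {X : Type u} [NormedAddCommGroup X] (x : ℕ → X) : ℝ≥0∞ :=
  ⨅ n : ℕ, ⨆ (k : ℕ) (_ : n ≤ k) (l : ℕ) (_ : n ≤ l), ‖x k - x l‖ₑ

/-- `wck_X(x_n)`: the supremum over all subsequences `(y_k)` of the infimum of the distances from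
`X` of the weak* cluster points of `(y_k)`. -/
noncomputable def wckQ (x : ℕ → X) : ℝ≥0∞ :=
  ⨆ (φ : ℕ → ℕ) (_ : StrictMono φ), ⨅ a ∈ clust 𝕜 (fun n => x (φ n)), distX 𝕜 a

/-- `wk(A)`: the supremum of the distances from `X` of the elements of the weak* closure of `A` in
`X**`. -/
noncomputable def wkM (A : Set X) : ℝ≥0∞ :=
  ⨆ (a : StrongDual 𝕜 (StrongDual 𝕜 X)) (_ : StrongDual.toWeakDual a ∈ closure (toBi 𝕜 '' A)),
    distX 𝕜 a

/-- De Blasi's measure `ω(A)`: the infimum over all nonempty weakly compact sets `K ⊆ X` of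
`sup_{x ∈ A} dist(x, K)`. -/
noncomputable def omegaM (A : Set X) : ℝ≥0∞ :=
  ⨅ (K : Set X) (_ : K.Nonempty ∧ IsCompact (toWeakSpace 𝕜 X '' K)),
    ⨆ x ∈ A, Metric.infEDist x K

end Pool.Agent.U559.QS
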