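import Pool.Agent.U559.QS.Unb
import Pool.Agent.U559.QS.Quant

/-!
Sequences far from all finite dimensional subspaces spanned by evaluations have `ℓ_1`
subsequences.
-/

set_option autoImplicit false
set_option linter.unusedSectionVars false

open Set Topology Filter

universe u v w

namespace Pool.Agent.U559.QS

variable {𝕜 : Type v} [RCLike 𝕜] {M : Type u} [MetricSpace M] {o : M}

/-- the span of the evaluations at the points of `S` -/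
noncomputable def spn (𝕜 : Type v) [RCLike 𝕜] (o : M) (S : Finset M) :
    Submodule 𝕜 (FreeSp 𝕜 M o) := Submodule.span 𝕜 (dl 𝕜 o '' (S : Set M))

instance (S : Finset M) : FiniteDimensional 𝕜 (spn 𝕜 o S) :=
  FiniteDimensional.span_of_finite 𝕜 (S.finite_toSet.image _)

lemma exists_sep (S : Finset M) (y : FreeSp 𝕜 M o) :
    ∃ F : StrongDual 𝕜 (FreeSp 𝕜 M o), ‖F‖ ≤ 1 ∧ (∀ b ∈ S, F (dl 𝕜 o b) = 0) ∧
      ‖F y‖ = Metric.infDist y (spn 𝕜 o S : Set (FreeSp 𝕜 M o)) := by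
  have hcl : IsClosed ((spn 𝕜 o S : Submodule 𝕜 (FreeSp 𝕜 M o)) : Set (FreeSp 𝕜 M o)) :=
    Submodule.closed_of_finiteDimensional _
  obtain ⟨g, hg1, hg2⟩ := exists_dual_vector'' 𝕜 ((spn 𝕜 o S).mkQL y)
  have hQ : ‖(spn 𝕜 o S).mkQL‖ ≤ 1 :=
    ContinuousLinearMap.opNorm_le_bound _ zero_le_one fun z => by
      rw [one_mul]
      exact Submodule.Quotient.norm_mk_le (spn 𝕜 o S) z
  refine ⟨g.comp (spn 𝕜 o S).mkQL, ?_, fun b hb => ?_, ?_⟩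
  · calc _ ≤ ‖g‖ * ‖(spn 𝕜 o S).mkQL‖ := ContinuousLinearMap.opNorm_comp_le _ _
      _ ≤ 1 * 1 := mul_le_mul hg1 hQ (norm_nonneg _) zero_le_one
      _ = 1 := one_mul _
  · have h1 : (spn 𝕜 o S).mkQL (dl 𝕜 o b) = 0 := by
      have : dl 𝕜 o b ∈ spn 𝕜 o S := Submodule.subset_span ⟨b, hb, rfl⟩
      exact (Submodule.Quotient.mk_eq_zero _).2 this
    rw [ContinuousLinearMap.comp_apply, h1, map_zero]
  · rw [ContinuousLinearMap.comp_apply, hg2, RCLike.norm_ofReal, abs_of_nonneg (norm_nonneg _)]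
    exact QuotientAddGroup.norm_mk (S := (spn 𝕜 o S).toAddSubgroup) y

open Classical in
/-- **Main selection theorem.** -/
theorem far {θ : ℝ} (hθ : 0 < θ) (hsep : ∀ x y : M, x ≠ y → θ ≤ dist x y)
    {I : Type w} (Y : I → FreeSp 𝕜 M o) (Lt : I → I → Prop) {B : ℝ} (hB : ∀ i, ‖Y i‖ ≤ B)
    {s : ℝ} (hs : 0 < s)
    (hfar : ∀ (t : Finset I) (S : Finset M), ∃ i, (∀ j ∈ t, Lt j i) ∧
      s < Metric.infDist (Y i) (spn 𝕜 o S : Set (FreeSp 𝕜 M o)))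
    {ε : ℝ} (hε : 0 < ε) :
    ∃ ι : ℕ → I, (∀ m n, m < n → Lt (ι m) (ι n)) ∧ ∃ γ : ℕ → ℝ, (∀ n, s - ε ≤ 60 * γ n) ∧
      ∀ σ : ℕ → 𝕜, (∀ i, ‖σ i‖ ≤ 1) → ∃ F : StrongDual 𝕜 (FreeSp 𝕜 M o), ‖F‖ ≤ 1 ∧
        ∀ n, ‖F (Y (ι n)) - σ n * (γ n : 𝕜)‖ ≤ ε := by
  let η : ℝ := min (ε / 2) s
  have hη : 0 < η := lt_min (by positivity) hs
  have hη1 : η ≤ ε / 2 := min_le_left _ _
  have hη2 : η ≤ s := min_le_right _ _
  let P : I × Finset M × (M → 𝕜) × StrongDual 𝕜 (FreeSp 𝕜 M o) → Prop := fun x =>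
    o ∉ x.2.1 ∧ ‖Y x.1 - el 𝕜 o x.2.1 x.2.2.1‖ ≤ η ∧ ‖x.2.2.2‖ ≤ 1 ∧ s ≤ ‖x.2.2.2 (Y x.1)‖
  let r : I × Finset M × (M → 𝕜) × StrongDual 𝕜 (FreeSp 𝕜 M o) →
      I × Finset M × (M → 𝕜) × StrongDual 𝕜 (FreeSp 𝕜 M o) → Prop := fun x y =>
    Lt x.1 y.1 ∧ ∀ b ∈ x.2.1, y.2.2.2 (dl 𝕜 o b) = 0
  obtain ⟨q, hP, hr⟩ := exists_seq_of_forall_finset_exists P r (by
    intro t _
    obtain ⟨i, hi1, hi2⟩ := hfar (t.image Prod.fst) (t.biUnion fun x => x.2.1)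
    obtain ⟨F, hF1, hF2, hF3⟩ := exists_sep (𝕜 := 𝕜) (t.biUnion fun x => x.2.1) (Y i)
    obtain ⟨A, c, hA, hc⟩ := approx (Y i) hη
    refine ⟨(i, A, c, F), ⟨hA, hc, hF1, ?_⟩, fun x hx => ⟨hi1 _ (Finset.mem_image_of_mem _ hx),
      fun b hb => hF2 b (Finset.mem_biUnion.2 ⟨x, hx, hb⟩)⟩⟩
    rw [hF3]
    exact hi2.le)
  have hPd : ∀ (F : StrongDual 𝕜 (FreeSp 𝕜 M o)), ‖F‖ ≤ 1 → ∀ n,
      ‖F (Y (q n).1) - F (el 𝕜 o (q n).2.1 (q n).2.2.1)‖ ≤ η := by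
    intro F hF n
    rw [← map_sub]
    calc _ ≤ ‖F‖ * ‖Y (q n).1 - el 𝕜 o (q n).2.1 (q n).2.2.1‖ := F.le_opNorm _
      _ ≤ 1 * η := mul_le_mul hF (hP n).2.1 (norm_nonneg _) zero_le_one
      _ = η := one_mul _
  obtain ⟨φ, hφ, γ, hγ, h⟩ := main_sl hθ hsep (fun n => (q n).2.1) (fun n => (hP n).1)
    (fun n => (q n).2.2.1) (B := B + η) (fun n => by
      have h1 := norm_sub_norm_le (el 𝕜 o (q n).2.1 (q n).2.2.1) (Y (q n).1)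
      rw [norm_sub_rev] at h1
      have h2 := (hP n).2.1
      have h3 := hB (q n).1
      linarith)
    (fun n b => (q n).2.2.2 (dl 𝕜 o b)) (fun n => by rw [dl_base, map_zero])
    (fun n x y => by
      rw [← map_sub]
      calc _ ≤ ‖(q n).2.2.2‖ * ‖dl 𝕜 o x - dl 𝕜 o y‖ := (q n).2.2.2.le_opNorm _
        _ ≤ 1 * dist x y :=
          mul_le_mul (hP n).2.2.1 (norm_dl_sub_le x y) (norm_nonneg _) zero_le_one
        _ = _ := one_mul _)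
    (fun j k hjk b hb => (hr j k hjk).2 b hb) (s := s - η) (by linarith)
    (fun n => by
      have h1 := hPd _ (hP n).2.2.1 n
      have h2 := (hP n).2.2.2
      have h3 := norm_sub_norm_le ((q n).2.2.2 (Y (q n).1))
        ((q n).2.2.2 (el 𝕜 o (q n).2.1 (q n).2.2.1))
      rw [map_el] at h1 h3
      linarith) (ε := ε / 2) (by positivity)
  refine ⟨fun n => (q (φ n)).1, fun m n hmn => (hr _ _ (hφ hmn)).1, γ, fun n => ?_,
    fun σ hσ => ?_⟩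
  · have := hγ n
    linarith
  · obtain ⟨F, hF, hFσ⟩ := h σ hσ
    refine ⟨F, hF, fun n => ?_⟩
    have h1 := hPd F hF (φ n)
    have h2 := hFσ n
    have h3 := norm_add_le (F (Y (q (φ n)).1) - F (el 𝕜 o (q (φ n)).2.1 (q (φ n)).2.2.1))
      (F (el 𝕜 o (q (φ n)).2.1 (q (φ n)).2.2.1) - σ n * (γ n : 𝕜))
    rw [sub_add_sub_cancel] at h3
    linarith

end Pool.Agent.U559.QS
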