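import Pool.Agent.U559.QS.Far

/-!
Consequences: the quantitative Schur property, quantitative weak sequential completeness and the
equivalence of measures of weak non-compactness.
-/

set_option autoImplicit false
set_option linter.unusedSectionVars false

open Set Topology Filter
open scoped ENNReal

universe u v w

namespace Pool.Agent.U559.QS

section general

variable {𝕜 : Type v} [RCLike 𝕜] {X : Type u} [NormedAddCommGroup X] [NormedSpace 𝕜 X]

lemma cluster_mem {F : ℕ → StrongDual 𝕜 X} {G : StrongDual 𝕜 X}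
    (h : MapClusterPt (StrongDual.toWeakDual G) atTop (fun n => StrongDual.toWeakDual (F n)))
    (x : X) {C : Set 𝕜} (hC : IsClosed C) (hx : ∀ᶠ n in atTop, F n x ∈ C) : G x ∈ C := by
  have h1 : Continuous (fun w : WeakDual 𝕜 X => w x) := WeakDual.eval_continuous x
  have h2 := h.continuousAt_comp h1.continuousAt
  exact hC.mem_of_mapClusterPt h2 hx

lemma cluster_freq {F : ℕ → StrongDual 𝕜 X} {G : StrongDual 𝕜 X}
    (h : MapClusterPt (StrongDual.toWeakDual G) atTop (fun n => StrongDual.toWeakDual (F n)))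
    (x : X) {η : ℝ} (hη : 0 < η) : ∃ n, ‖F n x - G x‖ < η := by
  have h1 : Continuous (fun w : WeakDual 𝕜 X => w x) := WeakDual.eval_continuous x
  have h2 := h.continuousAt_comp h1.continuousAt
  obtain ⟨n, hn⟩ := (h2.frequently (Metric.ball_mem_nhds _ hη)).exists
  refine ⟨n, ?_⟩
  rw [← dist_eq_norm]
  exact hn

lemma exists_cluster (F : ℕ → StrongDual 𝕜 X) {r : ℝ} (hF : ∀ n, ‖F n‖ ≤ r) :
    ∃ G : StrongDual 𝕜 X, ‖G‖ ≤ r ∧
      MapClusterPt (StrongDual.toWeakDual G) atTop (fun n => StrongDual.toWeakDual (F n)) := by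
  obtain ⟨G, hG, hGc⟩ := (WeakDual.isCompact_closedBall (𝕜 := 𝕜) (0 : StrongDual 𝕜 X)
    r).exists_mapClusterPt (f := (atTop : Filter ℕ)) (u := fun n => StrongDual.toWeakDual (F n))
    (by
      rw [le_principal_iff, mem_map]
      refine Filter.univ_mem' fun n => ?_
      change F n ∈ Metric.closedBall (0 : StrongDual 𝕜 X) r
      rw [mem_closedBall_zero_iff]
      exact hF n)
  refine ⟨WeakDual.toStrongDual G, ?_, hGc⟩
  have h1 : WeakDual.toStrongDual G ∈ Metric.closedBall (0 : StrongDual 𝕜 X) r := hG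
  rwa [mem_closedBall_zero_iff] at h1

lemma clust_nonempty (x : ℕ → X) {B : ℝ} (hB : ∀ n, ‖x n‖ ≤ B) : (clust 𝕜 x).Nonempty := by
  obtain ⟨G, -, hG⟩ := exists_cluster
    (fun n => NormedSpace.inclusionInDoubleDual 𝕜 X (x n)) (r := B) (fun n =>
      (NormedSpace.double_dual_bound 𝕜 X (x n)).trans (hB n))
  exact ⟨G, hG⟩

/-- A cluster point of an `ℓ_1` sequence is far from the space. -/
lemma clust_far (z : ℕ → X) (γ : ℕ → ℝ) {g ε : ℝ} (hγ : ∀ n, g ≤ γ n)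
    (h : ∀ σ : ℕ → 𝕜, (∀ i, ‖σ i‖ ≤ 1) → ∃ F : StrongDual 𝕜 X, ‖F‖ ≤ 1 ∧
      ∀ n, ‖F (z n) - σ n * (γ n : 𝕜)‖ ≤ ε)
    {a : StrongDual 𝕜 (StrongDual 𝕜 X)} (ha : a ∈ clust 𝕜 z) :
    ENNReal.ofReal (g - ε) ≤ distX 𝕜 a := by
  let σ : ℕ → ℕ → 𝕜 := fun m n => if n < m then -1 else 1
  have hσ : ∀ m i, ‖σ m i‖ ≤ 1 := by
    intro m i
    simp only [σ]
    split_ifs <;> simp
  choose F hF1 hF using fun m => h (σ m) (hσ m)
  obtain ⟨G, hG, hGc⟩ := exists_cluster F hF1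
  have hre : ∀ (w v : 𝕜), ‖w - v‖ ≤ ε → |RCLike.re w - RCLike.re v| ≤ ε := by
    intro w v hwv
    rw [← map_sub]
    exact (RCLike.abs_re_le_norm _).trans hwv
  have hG1 : ∀ n, RCLike.re (G (z n)) ≤ -g + ε := by
    intro n
    refine cluster_mem hGc (z n) (C := {w | RCLike.re w ≤ -g + ε})
      (isClosed_le RCLike.continuous_re continuous_const) ?_
    filter_upwards [eventually_gt_atTop n] with m hm
    have h1 := hre _ _ (hF m n)
    simp only [σ, if_pos hm, neg_mul, one_mul, map_neg, RCLike.ofReal_re] at h1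
    rw [abs_le] at h1
    have h2 := hγ n
    change RCLike.re (F m (z n)) ≤ -g + ε
    linarith [h1.2]
  have ha1 : ∀ (f : StrongDual 𝕜 X) (C : Set 𝕜), IsClosed C → (∀ᶠ n in atTop, f (z n) ∈ C) →
      a f ∈ C := fun f C hC hf =>
    cluster_mem (F := fun n => NormedSpace.inclusionInDoubleDual 𝕜 X (z n)) ha f hC hf
  have ha2 : RCLike.re (a G) ≤ -g + ε :=
    ha1 G {w | RCLike.re w ≤ -g + ε} (isClosed_le RCLike.continuous_re continuous_const)
      (Filter.Eventually.of_forall hG1)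
  have ha3 : ∀ m, g - ε ≤ RCLike.re (a (F m)) := by
    intro m
    refine ha1 (F m) {w | g - ε ≤ RCLike.re w}
      (isClosed_le continuous_const RCLike.continuous_re) ?_
    filter_upwards [eventually_ge_atTop m] with n hn
    have h1 := hre _ _ (hF m n)
    simp only [σ, if_neg (not_lt.2 hn), one_mul, RCLike.ofReal_re] at h1
    rw [abs_le] at h1
    have h2 := hγ n
    change g - ε ≤ RCLike.re (F m (z n))
    linarith [h1.1]
  rw [distX, Metric.le_infEDist]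
  rintro _ ⟨x, rfl⟩
  rw [edist_dist, dist_eq_norm]
  apply ENNReal.ofReal_le_ofReal
  refine le_of_forall_pos_le_add fun η hη => ?_
  obtain ⟨m, hm⟩ := cluster_freq hGc x hη
  have h1 : ‖(a - NormedSpace.inclusionInDoubleDual 𝕜 X x) (F m - G)‖ ≤
      ‖a - NormedSpace.inclusionInDoubleDual 𝕜 X x‖ * 2 := by
    refine (ContinuousLinearMap.le_opNorm _ _).trans ?_
    apply mul_le_mul_of_nonneg_left _ (norm_nonneg _)
    have := norm_sub_le (F m) G
    have := hF1 m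
    linarith
  have h2 : (a - NormedSpace.inclusionInDoubleDual 𝕜 X x) (F m - G) =
      a (F m) - a G - (F m x - G x) := by
    rw [_root_.sub_apply, map_sub, NormedSpace.dual_def,
      _root_.sub_apply]
  rw [h2] at h1
  have h3 := RCLike.re_le_norm (a (F m) - a G - (F m x - G x))
  rw [map_sub, map_sub] at h3
  have h4 := RCLike.re_le_norm (F m x - G x)
  have h5 := ha3 m
  linarith

/-- `wck_X(x_n) ≤ ca(x_n)`. -/
lemma wck_le_ca (x : ℕ → X) {B : ℝ} (hB : ∀ n, ‖x n‖ ≤ B) : wckQ 𝕜 x ≤ caQ x := by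
  refine iSup₂_le fun φ hφ => ?_
  obtain ⟨a, ha⟩ := clust_nonempty (𝕜 := 𝕜) (fun n => x (φ n)) (fun n => hB _)
  refine iInf₂_le_of_le a ha ?_
  refine le_iInf fun n => ?_
  set S : ℝ≥0∞ := ⨆ (k : ℕ) (_ : n ≤ k) (l : ℕ) (_ : n ≤ l), ‖x k - x l‖ₑ with hS
  rcases eq_or_ne S ⊤ with hT | hT
  · rw [hT]; exact le_top
  have hkl : ∀ k l, n ≤ k → n ≤ l → ‖x k - x l‖ ≤ S.toReal := by
    intro k l hk hl
    have h1 : ‖x k - x l‖ₑ ≤ S := by
      rw [hS]
      exact le_iSup₂_of_le k hk (le_iSup₂_of_le l hl le_rfl)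
    have h2 := ENNReal.toReal_mono hT h1
    rwa [toReal_enorm] at h2
  have h1 : ‖a - NormedSpace.inclusionInDoubleDual 𝕜 X (x (φ n))‖ ≤ S.toReal := by
    refine ContinuousLinearMap.opNorm_le_bound _ ENNReal.toReal_nonneg fun f => ?_
    rw [_root_.sub_apply, NormedSpace.dual_def]
    have h2 : a f ∈ {w : 𝕜 | ‖w - f (x (φ n))‖ ≤ S.toReal * ‖f‖} := by
      refine cluster_mem (F := fun n => NormedSpace.inclusionInDoubleDual 𝕜 X (x (φ n))) ha f
        (isClosed_le (by fun_prop) continuous_const) ?_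
      filter_upwards [eventually_ge_atTop n] with k hk
      change ‖f (x (φ k)) - f (x (φ n))‖ ≤ S.toReal * ‖f‖
      rw [← map_sub, mul_comm]
      refine (f.le_opNorm _).trans (mul_le_mul_of_nonneg_left ?_ (norm_nonneg _))
      exact hkl _ _ (hk.trans (hφ.id_le k)) (hφ.id_le n)
    exact h2
  refine (Metric.infEDist_le_edist_of_mem (mem_range_self (x (φ n)))).trans ?_
  rw [edist_dist, dist_eq_norm]
  exact ENNReal.ofReal_le_of_le_toReal h1

end general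

variable {𝕜 : Type v} [RCLike 𝕜] {M : Type u} [MetricSpace M] {o : M}

lemma delta_ge {θ : ℝ} (hθ : 0 < θ) (hsep : ∀ x y : M, x ≠ y → θ ≤ dist x y)
    (x : ℕ → FreeSp 𝕜 M o) {B : ℝ} (hB : ∀ n, ‖x n‖ ≤ B) {s : ℝ} (hs : 0 < s)
    (hfar : ∀ (t : Finset ℕ) (S : Finset M), ∃ k, (∀ j ∈ t, j < k) ∧
      s < Metric.infDist (x k) (spn 𝕜 o S : Set (FreeSp 𝕜 M o)))
    {ε : ℝ} (hε : 0 < ε) : ENNReal.ofReal ((s - ε) / 30 - 2 * ε) ≤ deltaQ 𝕜 x := by
  obtain ⟨ι, hι, γ, hγ, h⟩ := far hθ hsep x (fun j k => j < k) hB hs hfar hε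
  have hιm : StrictMono ι := fun m n hmn => hι m n hmn
  obtain ⟨F, hF, hFσ⟩ := h (fun n => (-1) ^ n) (fun n => by simp)
  refine le_iSup₂_of_le F hF (le_iInf fun n => ?_)
  have h1 : n ≤ ι (2 * n) := (show n ≤ 2 * n by omega).trans (hιm.id_le (2 * n))
  have h2 : n ≤ ι (2 * n + 1) :=
    (show n ≤ 2 * n + 1 by omega).trans (hιm.id_le (2 * n + 1))
  refine le_iSup₂_of_le (ι (2 * n)) h1 (le_iSup₂_of_le (ι (2 * n + 1)) h2 ?_)
  rw [← ofReal_norm]
  apply ENNReal.ofReal_le_ofReal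
  have h3 := hFσ (2 * n)
  have h4 := hFσ (2 * n + 1)
  have h5 : ((-1 : 𝕜)) ^ (2 * n) = 1 := by rw [pow_mul]; simp
  have h6 : ((-1 : 𝕜)) ^ (2 * n + 1) = -1 := by rw [pow_succ, h5, one_mul]
  rw [h5, one_mul] at h3
  rw [h6, neg_one_mul, sub_neg_eq_add] at h4
  have h7 := (RCLike.abs_re_le_norm _).trans h3
  have h8 := (RCLike.abs_re_le_norm _).trans h4
  rw [map_sub, RCLike.ofReal_re, abs_le] at h7
  rw [map_add, RCLike.ofReal_re, abs_le] at h8
  have h9 := RCLike.re_le_norm (F (x (ι (2 * n))) - F (x (ι (2 * n + 1))))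
  rw [map_sub] at h9
  have h10 := hγ (2 * n)
  have h11 := hγ (2 * n + 1)
  linarith [h7.1, h8.2]

/-- Free spaces over uniformly separated metric spaces have the `121`-Schur property. -/
theorem schur (hM : UniformlySeparated M) (x : ℕ → FreeSp 𝕜 M o)
    (hx : ∃ B : ℝ, ∀ n, ‖x n‖ ≤ B) : caQ x ≤ 121 * deltaQ 𝕜 x := by
  obtain ⟨θ, hθ, hsep⟩ := hM
  obtain ⟨B, hB⟩ := hx
  by_contra hcon
  push Not at hcon
  have hfin : deltaQ 𝕜 x ≠ ⊤ := by
    intro hT
    rw [hT, ENNReal.mul_top (by norm_num)] at hcon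
    exact not_top_lt hcon
  set D : ℝ := (deltaQ 𝕜 x).toReal with hD
  have hD0 : 0 ≤ D := ENNReal.toReal_nonneg
  have hDe : deltaQ 𝕜 x = ENNReal.ofReal D := (ENNReal.ofReal_toReal hfin).symm
  obtain ⟨t, ht0, ht1, ht2⟩ := ENNReal.lt_iff_exists_real_btwn.1 hcon
  have htD : 121 * D < t := by
    rw [hDe] at ht1
    have h1 : (121 : ℝ≥0∞) = ENNReal.ofReal 121 := by norm_num
    rw [h1, ← ENNReal.ofReal_mul (by norm_num)] at ht1
    exact (ENNReal.ofReal_lt_ofReal_iff_of_nonneg (by positivity)).1 ht1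
  let s : ℝ := 30 * D + (t - 121 * D) / 8
  have hs : 0 < s := by
    have : 0 < (t - 121 * D) / 8 := by linarith
    change 0 < 30 * D + (t - 121 * D) / 8
    linarith
  -- `x` is not far from all the subspaces
  have hnf : ∃ (N : ℕ) (S : Finset M), ∀ k, N ≤ k →
      Metric.infDist (x k) (spn 𝕜 o S : Set (FreeSp 𝕜 M o)) ≤ s := by
    by_contra hc
    push Not at hc
    have hfar : ∀ (t : Finset ℕ) (S : Finset M), ∃ k, (∀ j ∈ t, j < k) ∧
        s < Metric.infDist (x k) (spn 𝕜 o S : Set (FreeSp 𝕜 M o)) := by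
      intro t S
      obtain ⟨k, hk1, hk2⟩ := hc (t.sup id + 1) S
      exact ⟨k, fun j hj => lt_of_le_of_lt (Finset.le_sup (f := id) hj) hk1, hk2⟩
    have hsD : 30 * D < s := by
      change 30 * D < 30 * D + (t - 121 * D) / 8
      linarith
    have h1 := delta_ge hθ hsep x hB hs hfar (ε := (s / 30 - D) / 4) (by linarith)
    rw [hDe, ENNReal.ofReal_le_ofReal_iff hD0] at h1
    linarith
  obtain ⟨N, S, hN⟩ := hnf
  let η : ℝ := (t - D - 4 * s) / 8
  have hη : 0 < η := by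
    change 0 < (t - D - 4 * (30 * D + (t - 121 * D) / 8)) / 8
    linarith
  have hu : ∀ k, ∃ u : spn 𝕜 o S, N ≤ k → dist (x k) (u : FreeSp 𝕜 M o) < s + η := by
    intro k
    by_cases hk : N ≤ k
    · have h1 : Metric.infDist (x k) (spn 𝕜 o S : Set (FreeSp 𝕜 M o)) < s + η := by
        have := hN k hk
        linarith
      rw [Metric.infDist_lt_iff ⟨0, (spn 𝕜 o S).zero_mem⟩] at h1
      obtain ⟨u, hu1, hu2⟩ := h1
      exact ⟨⟨u, hu1⟩, fun _ => hu2⟩
    · exact ⟨0, fun h => absurd h hk⟩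
  choose u hu using hu
  have hkl : ∀ n, ∃ k l, max n N ≤ k ∧ max n N ≤ l ∧ t < ‖x k - x l‖ := by
    intro n
    have h1 : ENNReal.ofReal t < ⨆ (k : ℕ) (_ : max n N ≤ k) (l : ℕ) (_ : max n N ≤ l),
        ‖x k - x l‖ₑ := lt_of_lt_of_le ht2 (iInf_le _ _)
    rw [lt_iSup_iff] at h1
    obtain ⟨k, h1⟩ := h1
    rw [lt_iSup_iff] at h1
    obtain ⟨hk, h1⟩ := h1
    rw [lt_iSup_iff] at h1
    obtain ⟨l, h1⟩ := h1
    rw [lt_iSup_iff] at h1
    obtain ⟨hl, h1⟩ := h1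
    refine ⟨k, l, hk, hl, ?_⟩
    rw [← ofReal_norm] at h1
    exact (ENNReal.ofReal_lt_ofReal_iff_of_nonneg ht0).1 h1
  choose k l hk hl hkl using hkl
  have hbd : ∀ n, N ≤ n → ‖u n‖ ≤ B + (s + η) := by
    intro n hn
    have h1 := hu n hn
    rw [dist_eq_norm] at h1
    have h2 := norm_sub_norm_le (u n : FreeSp 𝕜 M o) (x n)
    rw [norm_sub_rev] at h2
    have h3 := hB n
    change ‖(u n : FreeSp 𝕜 M o)‖ ≤ _
    linarith
  have hprop : ProperSpace (spn 𝕜 o S) := FiniteDimensional.proper 𝕜 (spn 𝕜 o S)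
  obtain ⟨p, -, ψ, hψ, hlim⟩ := tendsto_subseq_of_bounded
    (s := Metric.closedBall (0 : spn 𝕜 o S × spn 𝕜 o S) (B + (s + η)))
    Metric.isBounded_closedBall (x := fun n => (u (k n), u (l n))) (fun n => by
      rw [mem_closedBall_zero_iff, Prod.norm_def]
      exact max_le (hbd _ (le_trans (le_max_right _ _) (hk n)))
        (hbd _ (le_trans (le_max_right _ _) (hl n))))
  obtain ⟨F, hF1, hF2⟩ := exists_dual_vector'' 𝕜 ((p.1 : FreeSp 𝕜 M o) - (p.2 : FreeSp 𝕜 M o))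
  have hFd : ∃ n : ℕ, ∀ k l, n ≤ k → n ≤ l → ‖F (x k) - F (x l)‖ < D + η := by
    have h0 : (⨅ n : ℕ, ⨆ (k : ℕ) (_ : n ≤ k) (l : ℕ) (_ : n ≤ l), ‖F (x k) - F (x l)‖ₑ) ≤
        deltaQ 𝕜 x := by
      unfold deltaQ
      exact le_iSup₂_of_le F hF1 le_rfl
    have h1 : (⨅ n : ℕ, ⨆ (k : ℕ) (_ : n ≤ k) (l : ℕ) (_ : n ≤ l), ‖F (x k) - F (x l)‖ₑ) <
        ENNReal.ofReal (D + η) := by
      refine lt_of_le_of_lt (h0.trans_eq hDe) ?_
      exact (ENNReal.ofReal_lt_ofReal_iff (by linarith)).2 (by linarith)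
    rw [iInf_lt_iff] at h1
    obtain ⟨n, hn⟩ := h1
    refine ⟨n, fun k l hk hl => ?_⟩
    have h3 : ‖F (x k) - F (x l)‖ₑ ≤ ⨆ (k : ℕ) (_ : n ≤ k) (l : ℕ) (_ : n ≤ l),
        ‖F (x k) - F (x l)‖ₑ :=
      (le_iSup₂ (f := fun l (_ : n ≤ l) => ‖F (x k) - F (x l)‖ₑ) l hl).trans
        (le_iSup₂ (f := fun k (_ : n ≤ k) => ⨆ (l : ℕ) (_ : n ≤ l), ‖F (x k) - F (x l)‖ₑ) k hk)
    have h2 : ‖F (x k) - F (x l)‖ₑ < ENNReal.ofReal (D + η) := lt_of_le_of_lt h3 hn
    rw [← ofReal_norm] at h2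
    exact (ENNReal.ofReal_lt_ofReal_iff_of_nonneg (norm_nonneg _)).1 h2
  obtain ⟨n, hn⟩ := hFd
  have hlim2 : ∀ᶠ m in atTop, dist (u (k (ψ m)), u (l (ψ m))) p < η / 2 :=
    hlim.eventually (Metric.ball_mem_nhds p (by positivity : 0 < η / 2))
  obtain ⟨m, hm1, hm2⟩ := (hlim2.and (eventually_ge_atTop n)).exists
  have hkn : max (ψ m) N ≤ k (ψ m) := hk _
  have hln : max (ψ m) N ≤ l (ψ m) := hl _
  have hψm : m ≤ ψ m := hψ.id_le m
  have e1 := hn (k (ψ m)) (l (ψ m)) (by omega) (by omega)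
  have e2 := hkl (ψ m)
  have e3 := hu (k (ψ m)) (by omega)
  have e4 := hu (l (ψ m)) (by omega)
  rw [dist_eq_norm] at e3 e4
  rw [Prod.dist_eq, max_lt_iff] at hm1
  obtain ⟨e5, e6⟩ := hm1
  have e5' : ‖(u (k (ψ m)) : FreeSp 𝕜 M o) - (p.1 : FreeSp 𝕜 M o)‖ < η / 2 := by
    rw [dist_eq_norm] at e5; exact e5
  have e6' : ‖(u (l (ψ m)) : FreeSp 𝕜 M o) - (p.2 : FreeSp 𝕜 M o)‖ < η / 2 := by
    rw [dist_eq_norm] at e6; exact e6
  generalize (u (k (ψ m)) : FreeSp 𝕜 M o) = v1 at *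
  generalize (u (l (ψ m)) : FreeSp 𝕜 M o) = v2 at *
  generalize (p.1 : FreeSp 𝕜 M o) = q1 at *
  generalize (p.2 : FreeSp 𝕜 M o) = q2 at *
  generalize x (k (ψ m)) = y1 at *
  generalize x (l (ψ m)) = y2 at *
  have hFn : ∀ z, ‖F z‖ ≤ ‖z‖ := fun z =>
    (F.le_opNorm z).trans (mul_le_of_le_one_left (norm_nonneg _) hF1)
  have f1 : ‖y1 - y2‖ ≤ ‖y1 - v1‖ + ‖v1 - q1‖ + ‖q1 - q2‖ + ‖v2 - q2‖ + ‖y2 - v2‖ := by
    have h1 : y1 - y2 = (y1 - v1) + (v1 - q1) + (q1 - q2) - (v2 - q2) - (y2 - v2) := by abel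
    rw [h1]
    refine (norm_sub_le _ _).trans (add_le_add ?_ le_rfl)
    refine (norm_sub_le _ _).trans (add_le_add ?_ le_rfl)
    refine (norm_add_le _ _).trans (add_le_add ?_ le_rfl)
    exact norm_add_le _ _
  have f2 : ‖q1 - q2‖ ≤ ‖F y1 - F y2‖ + ‖y1 - v1‖ + ‖v1 - q1‖ + ‖v2 - q2‖ + ‖y2 - v2‖ := by
    have h0 : ‖q1 - q2‖ = ‖F (q1 - q2)‖ := by
      rw [hF2, RCLike.norm_ofReal, abs_of_nonneg (norm_nonneg _)]
    have h1 : F (q1 - q2) = (F y1 - F y2) - F (y1 - v1) - F (v1 - q1) + F (v2 - q2) +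
        F (y2 - v2) := by
      simp only [map_sub]; ring
    rw [h0, h1]
    refine (norm_add_le _ _).trans (add_le_add ?_ (hFn _))
    refine (norm_add_le _ _).trans (add_le_add ?_ (hFn _))
    refine (norm_sub_le _ _).trans (add_le_add ?_ (hFn _))
    exact (norm_sub_le _ _).trans (add_le_add le_rfl (hFn _))
  have hη' : t = D + 4 * s + 8 * η := by
    change t = D + 4 * s + 8 * ((t - D - 4 * s) / 8)
    ring
  linarith

/-- Free spaces over uniformly separated metric spaces are `121`-weakly sequentially complete. -/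
theorem wsc (hM : UniformlySeparated M) (x : ℕ → FreeSp 𝕜 M o)
    (hx : ∃ B : ℝ, ∀ n, ‖x n‖ ≤ B) : wckQ 𝕜 x ≤ 121 * deltaQ 𝕜 x := by
  obtain ⟨B, hB⟩ := hx
  exact (wck_le_ca x hB).trans (schur hM x ⟨B, hB⟩)

/-- In free spaces over uniformly separated metric spaces De Blasi's measure of weak
non-compactness is at most `60` times `wk`. -/
theorem omega_le (hM : UniformlySeparated M) (A : Set (FreeSp 𝕜 M o))
    (hA : ∃ B : ℝ, ∀ x ∈ A, ‖x‖ ≤ B) : omegaM 𝕜 A ≤ 60 * wkM 𝕜 A := by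
  obtain ⟨θ, hθ, hsep⟩ := hM
  obtain ⟨B, hB⟩ := hA
  by_contra hcon
  push Not at hcon
  have hfin : wkM 𝕜 A ≠ ⊤ := by
    intro hT
    rw [hT, ENNReal.mul_top (by norm_num)] at hcon
    exact not_top_lt hcon
  set D : ℝ := (wkM 𝕜 A).toReal with hD
  have hD0 : 0 ≤ D := ENNReal.toReal_nonneg
  have hDe : wkM 𝕜 A = ENNReal.ofReal D := (ENNReal.ofReal_toReal hfin).symm
  obtain ⟨s, hs0, hs1, hs2⟩ := ENNReal.lt_iff_exists_real_btwn.1 hcon
  have hsD : 60 * D < s := by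
    rw [hDe] at hs1
    have h1 : (60 : ℝ≥0∞) = ENNReal.ofReal 60 := by norm_num
    rw [h1, ← ENNReal.ofReal_mul (by norm_num)] at hs1
    exact (ENNReal.ofReal_lt_ofReal_iff_of_nonneg (by positivity)).1 hs1
  have hs : 0 < s := by linarith
  have hfar : ∀ (t : Finset A) (S : Finset M), ∃ i : A, (∀ j ∈ t, True) ∧
      s < Metric.infDist (i : FreeSp 𝕜 M o) (spn 𝕜 o S : Set (FreeSp 𝕜 M o)) := by
    intro _ S
    by_contra hc
    push Not at hc
    have hc' : ∀ y ∈ A, Metric.infDist y (spn 𝕜 o S : Set (FreeSp 𝕜 M o)) ≤ s := by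
      intro y hy
      exact hc ⟨y, hy⟩ (fun _ _ => trivial)
    apply absurd hs2 (not_lt.2 _)
    have hprop : ProperSpace (spn 𝕜 o S) := FiniteDimensional.proper 𝕜 (spn 𝕜 o S)
    let K : Set (FreeSp 𝕜 M o) :=
      Subtype.val '' (Metric.closedBall (0 : spn 𝕜 o S) (|B| + s + 1))
    refine iInf₂_le_of_le K ⟨⟨0, 0, ?_, rfl⟩, ?_⟩ (iSup₂_le fun y hy => ?_)
    · exact Metric.mem_closedBall_self (by positivity)
    · have h1 : IsCompact K := (isCompact_closedBall _ _).image continuous_subtype_val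
      have h2 := h1.image (toWeakSpaceCLM 𝕜 (FreeSp 𝕜 M o)).continuous
      exact h2
    · refine ENNReal.le_of_forall_pos_le_add fun η hη _ => ?_
      let η' : ℝ := min η 1
      have hη'0 : 0 < η' := lt_min (by exact_mod_cast hη) one_pos
      have hη'1 : η' ≤ 1 := min_le_right _ _
      have hη'2 : η' ≤ η := min_le_left _ _
      have h1 : Metric.infDist y (spn 𝕜 o S : Set (FreeSp 𝕜 M o)) < s + η' := by
        have := hc' y hy
        linarith
      rw [Metric.infDist_lt_iff ⟨0, (spn 𝕜 o S).zero_mem⟩] at h1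
      obtain ⟨u, hu1, hu2⟩ := h1
      have hu3 : u ∈ K := by
        refine ⟨⟨u, hu1⟩, ?_, rfl⟩
        rw [mem_closedBall_zero_iff]
        change ‖u‖ ≤ |B| + s + 1
        have h2 := norm_sub_norm_le u y
        rw [dist_eq_norm, norm_sub_rev] at hu2
        have h3 := hB y hy
        have h4 := le_abs_self B
        linarith
      refine (Metric.infEDist_le_edist_of_mem hu3).trans ?_
      rw [edist_dist]
      have h5 : ENNReal.ofReal s + (η : ℝ≥0∞) = ENNReal.ofReal (s + η) := by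
        rw [ENNReal.ofReal_add hs.le (by positivity), ENNReal.ofReal_coe_nnreal]
      rw [h5]
      exact ENNReal.ofReal_le_ofReal (by linarith)
  let ε : ℝ := (s / 60 - D) / 2
  have hε : 0 < ε := by
    change 0 < (s / 60 - D) / 2
    linarith
  obtain ⟨ι, -, γ, hγ, h⟩ := far hθ hsep (fun i : A => (i : FreeSp 𝕜 M o)) (fun _ _ => True)
    (fun i => hB _ i.2) hs hfar hε
  obtain ⟨a, ha⟩ := clust_nonempty (𝕜 := 𝕜) (fun n => ((ι n : A) : FreeSp 𝕜 M o)) (B := B)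
    (fun n => hB _ (ι n).2)
  have h1 := clust_far (fun n => ((ι n : A) : FreeSp 𝕜 M o)) γ (g := (s - ε) / 60) (ε := ε)
    (fun n => by
      have := hγ n
      linarith) h ha
  have h2 : StrongDual.toWeakDual a ∈ closure (toBi 𝕜 '' A) :=
    isClosed_closure.mem_of_mapClusterPt ha
      (Filter.Eventually.of_forall fun n => subset_closure ⟨_, (ι n).2, rfl⟩)
  have h3 : distX 𝕜 a ≤ wkM 𝕜 A := by
    unfold wkM
    exact le_iSup₂_of_le a h2 le_rfl
  have h4 := h1.trans h3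
  rw [hDe, ENNReal.ofReal_le_ofReal_iff hD0] at h4
  have h5 : ε = (s / 60 - D) / 2 := rfl
  linarith

end Pool.Agent.U559.QS
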