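import Pool.Agent.U559.QS.Bdd

/-!
The gliding hump for escaping test functions, and the combination of the two cases.
-/

set_option autoImplicit false
set_option linter.unusedSectionVars false

open Set Topology Filter

universe u v

namespace Pool.Agent.U559.QS

variable {𝕜 : Type v} [RCLike 𝕜] {M : Type u} [MetricSpace M] {o : M}

/-- cut-off function: `1` on the ball of radius `R`, `0` off the ball of radius `2 R` -/
noncomputable def cut (o : M) (R : ℝ) (x : M) : ℝ := max 0 (min 1 (2 - dist x o / R))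

lemma cut_nonneg (R : ℝ) (x : M) : 0 ≤ cut o R x := le_max_left _ _

lemma cut_le_one (R : ℝ) (x : M) : cut o R x ≤ 1 := max_le zero_le_one (min_le_left _ _)

lemma cut_one {R : ℝ} (hR : 0 < R) {x : M} (h : dist x o ≤ R) : cut o R x = 1 := by
  have h1 : dist x o / R ≤ 1 := (div_le_one hR).2 h
  rw [cut, min_eq_left (by linarith), max_eq_right zero_le_one]

lemma cut_zero {R : ℝ} (hR : 0 < R) {x : M} (h : 2 * R ≤ dist x o) : cut o R x = 0 := by
  have h1 : 2 ≤ dist x o / R := (le_div_iff₀ hR).2 h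
  rw [cut]
  apply max_eq_left
  exact (min_le_right _ _).trans (by linarith)

lemma cut_sub {R : ℝ} (hR : 0 < R) (x y : M) : |cut o R x - cut o R y| ≤ dist x y / R := by
  have h1 : |cut o R x - cut o R y| ≤ |min 1 (2 - dist x o / R) - min 1 (2 - dist y o / R)| := by
    have := abs_max_sub_max_le_max 0 (min 1 (2 - dist x o / R)) 0 (min 1 (2 - dist y o / R))
    simpa [cut] using this
  have h2 : |min 1 (2 - dist x o / R) - min 1 (2 - dist y o / R)| ≤
      |(2 - dist x o / R) - (2 - dist y o / R)| := by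
    have := abs_min_sub_min_le_max 1 (2 - dist x o / R) 1 (2 - dist y o / R)
    simpa using this
  refine (h1.trans h2).trans ?_
  have h3 : (2 - dist x o / R) - (2 - dist y o / R) = -((dist x o - dist y o) / R) := by ring
  rw [h3, abs_neg, abs_div, abs_of_pos hR]
  exact div_le_div_of_nonneg_right (abs_dist_sub_le _ _ _) hR.le

lemma mul_cut {R L : ℝ} (hR : 0 < R) (g : M → 𝕜)
    (hL : ∀ x y, ‖g x - g y‖ ≤ L * dist x y) (hg : ∀ x, ‖g x‖ ≤ dist x o) (p : M → ℝ)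
    (hp0 : ∀ x, 0 ≤ p x) (hp1 : ∀ x, p x ≤ 1) (hp : ∀ x y, |p x - p y| ≤ dist x y / R)
    (hp2 : ∀ x y, 2 * R ≤ dist x o → 2 * R ≤ dist y o → p x = p y) (x y : M) :
    ‖(p x : 𝕜) * g x - (p y : 𝕜) * g y‖ ≤ (L + 2) * dist x y := by
  wlog h : dist y o ≤ dist x o with H
  · rw [norm_sub_rev, dist_comm]
    exact H hR g hL hg p hp0 hp1 hp hp2 y x (le_of_not_ge h)
  have h1 : (p x : 𝕜) * g x - (p y : 𝕜) * g y =
      (p x : 𝕜) * (g x - g y) + ((p x - p y : ℝ) : 𝕜) * g y := by push_cast; ring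
  rw [h1]
  have h2 : ‖(p x : 𝕜) * (g x - g y)‖ ≤ L * dist x y := by
    rw [norm_mul, RCLike.norm_ofReal, abs_of_nonneg (hp0 x)]
    exact (mul_le_of_le_one_left (norm_nonneg _) (hp1 x)).trans (hL x y)
  have h3 : ‖((p x - p y : ℝ) : 𝕜) * g y‖ ≤ 2 * dist x y := by
    rw [norm_mul, RCLike.norm_ofReal]
    by_cases h4 : 2 * R ≤ dist y o
    · rw [hp2 x y (h4.trans h) h4, sub_self, abs_zero, zero_mul]
      positivity
    · push Not at h4
      calc |p x - p y| * ‖g y‖ ≤ (dist x y / R) * (2 * R) :=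
            mul_le_mul (hp x y) ((hg y).trans h4.le) (norm_nonneg _) (by positivity)
        _ = 2 * dist x y := by field_simp
  calc _ ≤ ‖(p x : 𝕜) * (g x - g y)‖ + ‖((p x - p y : ℝ) : 𝕜) * g y‖ := norm_add_le _ _
    _ ≤ _ := by linarith

/-- the hump -/
noncomputable def hump (o : M) (R ρ : ℝ) (f : M → 𝕜) (x : M) : 𝕜 :=
  (cut o ρ x : 𝕜) * (((1 - cut o R x : ℝ) : 𝕜) * f x)

lemma one_sub_cut_mul {R : ℝ} (hR : 0 < R) (f : M → 𝕜) (h0 : f o = 0)
    (hL : ∀ x y, ‖f x - f y‖ ≤ dist x y) (x y : M) :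
    ‖((1 - cut o R x : ℝ) : 𝕜) * f x - ((1 - cut o R y : ℝ) : 𝕜) * f y‖ ≤ 3 * dist x y := by
  have h1 := mul_cut (L := 1) hR f (by simpa using hL)
    (fun x => by have := hL x o; rwa [h0, sub_zero] at this) (fun x => 1 - cut o R x)
    (fun x => by have := cut_le_one (o := o) R x; linarith)
    (fun x => by have := cut_nonneg (o := o) R x; linarith)
    (fun x y => by
      have := cut_sub (o := o) hR x y
      have h3 : (1 - cut o R x) - (1 - cut o R y) = -(cut o R x - cut o R y) := by ring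
      rwa [h3, abs_neg])
    (fun x y hx hy => by rw [cut_zero hR hx, cut_zero hR hy]) x y
  norm_num at h1 ⊢
  exact h1

lemma norm_hump_aux (R : ℝ) (f : M → 𝕜) (h0 : f o = 0)
    (hL : ∀ x y, ‖f x - f y‖ ≤ dist x y) (x : M) :
    ‖((1 - cut o R x : ℝ) : 𝕜) * f x‖ ≤ dist x o := by
  rw [norm_mul, RCLike.norm_ofReal]
  have h1 := cut_le_one (o := o) R x
  have h2 := cut_nonneg (o := o) R x
  rw [abs_of_nonneg (by linarith)]
  have h3 := hL x o
  rw [h0, sub_zero] at h3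
  exact (mul_le_of_le_one_left (norm_nonneg _) (by linarith)).trans h3

lemma hump_lip {R ρ : ℝ} (hR : 0 < R) (hρ : 0 < ρ) (f : M → 𝕜) (h0 : f o = 0)
    (hL : ∀ x y, ‖f x - f y‖ ≤ dist x y) (x y : M) :
    ‖hump o R ρ f x - hump o R ρ f y‖ ≤ 5 * dist x y := by
  have h1 := mul_cut (L := 3) hρ (fun x => ((1 - cut o R x : ℝ) : 𝕜) * f x)
    (one_sub_cut_mul hR f h0 hL) (norm_hump_aux R f h0 hL) (fun x => cut o ρ x)
    (cut_nonneg ρ) (cut_le_one ρ) (cut_sub hρ)
    (fun x y hx hy => by rw [cut_zero hρ hx, cut_zero hρ hy]) x y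
  have e : (3 : ℝ) + 2 = 5 := by norm_num
  rw [e] at h1
  exact h1

lemma norm_hump {R ρ : ℝ} (f : M → 𝕜) (h0 : f o = 0)
    (hL : ∀ x y, ‖f x - f y‖ ≤ dist x y) (x : M) : ‖hump o R ρ f x‖ ≤ dist x o := by
  rw [hump, norm_mul, RCLike.norm_ofReal, abs_of_nonneg (cut_nonneg _ _)]
  exact (mul_le_of_le_one_left (norm_nonneg _) (cut_le_one _ _)).trans
    (norm_hump_aux R f h0 hL x)

lemma hump_lo {R ρ : ℝ} (hR : 0 < R) (f : M → 𝕜) {x : M} (h : hump o R ρ f x ≠ 0) :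
    R < dist x o := by
  by_contra hc
  push Not at hc
  apply h
  rw [hump, cut_one hR hc]
  simp

lemma hump_hi {R ρ : ℝ} (hρ : 0 < ρ) (f : M → 𝕜) {x : M} (h : hump o R ρ f x ≠ 0) :
    dist x o < 2 * ρ := by
  by_contra hc
  push Not at hc
  apply h
  rw [hump, cut_zero hρ hc]
  simp

open Classical in
lemma humps (A : ℕ → Finset M) (c : ℕ → M → 𝕜)
    (f : ℕ → M → 𝕜) (h0 : ∀ k, f k o = 0) (hL : ∀ k x y, ‖f k x - f k y‖ ≤ dist x y)
    (R ρ : ℕ → ℝ) (hR : ∀ n, 1 ≤ R n) (hρ : ∀ n, R n ≤ ρ n)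
    (hA : ∀ n, ∀ b ∈ A n, dist b o ≤ ρ n) (hRρ : ∀ i j, i < j → 4 * ρ i ≤ R j)
    (τ : ℕ → 𝕜) (hτ : ∀ i, ‖τ i‖ ≤ 1) :
    ∃ F : StrongDual 𝕜 (FreeSp 𝕜 M o), ‖F‖ ≤ 5 ∧ ∀ j, F (el 𝕜 o (A j) (c j)) =
      ∑ i ∈ Finset.range (j + 1), τ i * ∑ b ∈ A j, c j b * hump o (R i) (ρ i) (f i) b := by
  let h : ℕ → M → 𝕜 := fun i => hump o (R i) (ρ i) (f i)
  have hRp : ∀ n, 0 < R n := fun n => lt_of_lt_of_le one_pos (hR n)
  have hρp : ∀ n, 0 < ρ n := fun n => lt_of_lt_of_le (hRp n) (hρ n)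
  have hlo : ∀ n x, h n x ≠ 0 → R n < dist x o := fun n x => hump_lo (hRp n) _
  have hhi : ∀ n x, h n x ≠ 0 → dist x o < 2 * ρ n := fun n x => hump_hi (hρp n) _
  have hlt : ∀ i j x y, i < j → h i x ≠ 0 → h j y ≠ 0 → 2 * dist x o < dist y o := by
    intro i j x y hij hi hj
    have h1 := hhi i x hi
    have h2 := hlo j y hj
    have h3 := hRρ i j hij
    linarith
  have huni : ∀ i j x, h i x ≠ 0 → h j x ≠ 0 → i = j := by
    intro i j x hi hj
    have hd : 0 ≤ dist x o := dist_nonneg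
    rcases lt_trichotomy i j with hij | hij | hij
    · have := hlt i j x x hij hi hj
      linarith
    · exact hij
    · have := hlt j i x x hij hj hi
      linarith
  let G : M → 𝕜 := fun x => if hx : ∃ n, h n x ≠ 0 then τ hx.choose * h hx.choose x else 0
  have hG : ∀ n x, h n x ≠ 0 → G x = τ n * h n x := by
    intro n x hx
    have hex : ∃ n, h n x ≠ 0 := ⟨n, hx⟩
    have h1 : G x = τ hex.choose * h hex.choose x := dif_pos hex
    rw [h1, huni _ _ x hex.choose_spec hx]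
  have hG0 : ∀ x, (∀ n, h n x = 0) → G x = 0 := by
    intro x hx
    exact dif_neg (by push Not; exact hx)
  have hGn : ∀ x, ‖G x‖ ≤ dist x o := by
    intro x
    by_cases hex : ∃ n, h n x ≠ 0
    · obtain ⟨n, hn⟩ := hex
      rw [hG n x hn, norm_mul]
      exact (mul_le_of_le_one_left (norm_nonneg _) (hτ n)).trans
        (norm_hump _ (h0 n) (hL n) x)
    · push Not at hex
      rw [hG0 x hex, norm_zero]
      exact dist_nonneg
  have hGL : ∀ x y, ‖G x - G y‖ ≤ 5 * dist x y := by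
    have hlip : ∀ n x y, ‖τ n * h n x - τ n * h n y‖ ≤ 5 * dist x y := by
      intro n x y
      rw [← mul_sub, norm_mul]
      exact (mul_le_of_le_one_left (norm_nonneg _) (hτ n)).trans
        (hump_lip (hRp n) (hρp n) _ (h0 n) (hL n) x y)
    have hdis : ∀ i j x y, i < j → h i x ≠ 0 → h j y ≠ 0 → ‖G x - G y‖ ≤ 5 * dist x y := by
      intro i j x y hij hi hj
      have h1 := hlt i j x y hij hi hj
      have h2 := norm_sub_le (G x) (G y)
      have h3 := hGn x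
      have h4 := hGn y
      have h5 := dist_triangle_left y o x
      have h6 : 0 ≤ dist x y := dist_nonneg
      linarith
    intro x y
    by_cases hx : ∃ n, h n x ≠ 0
    · obtain ⟨i, hi⟩ := hx
      by_cases hy : ∃ n, h n y ≠ 0
      · obtain ⟨j, hj⟩ := hy
        rcases lt_trichotomy i j with hij | hij | hij
        · exact hdis i j x y hij hi hj
        · subst hij
          rw [hG i x hi, hG i y hj]
          exact hlip i x y
        · rw [norm_sub_rev, dist_comm]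
          exact hdis j i y x hij hj hi
      · push Not at hy
        have h1 := hlip i x y
        rw [hy i, mul_zero] at h1
        rw [hG i x hi, hG0 y hy]
        exact h1
    · push Not at hx
      by_cases hy : ∃ n, h n y ≠ 0
      · obtain ⟨j, hj⟩ := hy
        have h1 := hlip j x y
        rw [hx j, mul_zero] at h1
        rw [hG j y hj, hG0 x hx]
        exact h1
      · push Not at hy
        rw [hG0 x hx, hG0 y hy, sub_self, norm_zero]
        positivity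
  obtain ⟨F, hF, hFG⟩ := exists_functional (o := o) G
    (by have := hGn o; rw [dist_self] at this; exact norm_le_zero_iff.1 this) 5
    (by norm_num) hGL
  refine ⟨F, hF, fun j => ?_⟩
  rw [map_el]
  have h1 : ∀ b ∈ A j, c j b * F (dl 𝕜 o b) =
      ∑ i ∈ Finset.range (j + 1), τ i * (c j b * h i b) := by
    intro b hb
    rw [hFG]
    have h2 : ∀ i, j < i → h i b = 0 := by
      intro i hi
      by_contra hne
      have h3 := hlo i b hne
      have h4 := hA j b hb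
      have h5 := hRρ j i hi
      have h6 := hρp j
      linarith
    have h3 : G b = ∑ i ∈ Finset.range (j + 1), τ i * h i b := by
      by_cases hex : ∃ n, h n b ≠ 0
      · obtain ⟨n, hn⟩ := hex
        have hnj : n < j + 1 := by
          by_contra hc
          exact hn (h2 n (by omega))
        rw [hG n b hn, Finset.sum_eq_single n]
        · intro i _ hin
          have : h i b = 0 := by
            by_contra hne
            exact hin (huni _ _ b hne hn)
          rw [this, mul_zero]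
        · intro hn'
          exact absurd (Finset.mem_range.2 hnj) hn'
      · push Not at hex
        rw [hG0 b hex]
        symm
        refine Finset.sum_eq_zero fun i _ => ?_
        rw [hex i, mul_zero]
    rw [h3, Finset.mul_sum]
    exact Finset.sum_congr rfl fun i _ => by ring
  rw [Finset.sum_congr rfl h1, Finset.sum_comm]
  refine Finset.sum_congr rfl fun i _ => ?_
  rw [Finset.mul_sum]

open Classical in
/-- The gliding hump for escaping test functions. -/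
theorem unb (A : ℕ → Finset M) (c : ℕ → M → 𝕜) {B : ℝ}
    (hB : ∀ k, ‖el 𝕜 o (A k) (c k)‖ ≤ B)
    (f : ℕ → M → 𝕜) (h0 : ∀ k, f k o = 0) (hL : ∀ k x y, ‖f k x - f k y‖ ≤ dist x y)
    {s : ℝ} (hs : ∀ R : ℝ, 0 < R → ∀ᶠ k in atTop,
      s ≤ ‖∑ b ∈ A k, c k b * (((1 - cut o R b : ℝ) : 𝕜) * f k b)‖)
    {ε : ℝ} (hε : 0 < ε) :
    ∃ φ : ℕ → ℕ, StrictMono φ ∧ ∃ γ : ℕ → ℝ, (∀ i, s ≤ 5 * γ i) ∧
      ∀ σ : ℕ → 𝕜, (∀ i, ‖σ i‖ ≤ 1) → ∃ F : StrongDual 𝕜 (FreeSp 𝕜 M o), ‖F‖ ≤ 1 ∧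
        ∀ i, ‖F (el 𝕜 o (A (φ i)) (c (φ i))) - σ i * (γ i : 𝕜)‖ ≤ ε := by
  let P : ℕ × ℝ × ℝ → Prop := fun x => 1 ≤ x.2.1 ∧ x.2.1 ≤ x.2.2 ∧
    (∀ b ∈ A x.1, dist b o ≤ x.2.2) ∧
    s ≤ ‖∑ b ∈ A x.1, c x.1 b * (((1 - cut o x.2.1 b : ℝ) : 𝕜) * f x.1 b)‖
  let r : ℕ × ℝ × ℝ → ℕ × ℝ × ℝ → Prop := fun x y => x.1 < y.1 ∧ 4 * x.2.2 ≤ y.2.1
  obtain ⟨q, hP, hr⟩ := exists_seq_of_forall_finset_exists P r (by
    intro t _
    obtain ⟨R0, hR0⟩ := (t.image (fun x => 4 * x.2.2)).exists_le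
    let R : ℝ := max 1 R0
    have hR : 0 < R := lt_of_lt_of_le one_pos (le_max_left _ _)
    have h1 : ∀ᶠ k in (atTop : Filter ℕ), ∀ x ∈ t, x.1 < k := by
      rw [t.eventually_all]
      exact fun x _ => eventually_gt_atTop _
    obtain ⟨k, hk1, hk2⟩ := ((hs R hR).and h1).exists
    obtain ⟨ρ0, hρ0⟩ := ((A k).image (fun b => dist b o)).exists_le
    refine ⟨(k, R, max R ρ0), ⟨le_max_left _ _, le_max_left _ _, fun b hb => ?_, hk1⟩,
      fun x hx => ⟨hk2 x hx, ?_⟩⟩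
    · exact (hρ0 _ (Finset.mem_image_of_mem _ hb)).trans (le_max_right _ _)
    · exact (hR0 _ (Finset.mem_image_of_mem _ hx)).trans (le_max_right _ _))
  let w : ℕ → ℕ → 𝕜 := fun j i =>
    ∑ b ∈ A (q j).1, c (q j).1 b * hump o (q i).2.1 (q i).2.2 (f (q i).1) b
  have hw : ∀ j, w j j = ∑ b ∈ A (q j).1, c (q j).1 b *
      (((1 - cut o (q j).2.1 b : ℝ) : 𝕜) * f (q j).1 b) := by
    intro j
    refine Finset.sum_congr rfl fun b hb => ?_
    obtain ⟨h1, h2, h3, _⟩ := hP j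
    rw [hump, cut_one (lt_of_lt_of_le (lt_of_lt_of_le one_pos h1) h2) (h3 b hb)]
    simp
  have hws : ∀ j, s ≤ ‖w j j‖ := by
    intro j
    rw [hw]
    exact (hP j).2.2.2
  have hB' : ∀ ψ : ℕ → ℕ, StrictMono ψ → ∀ τ : ℕ → 𝕜, (∀ i, ‖τ i‖ ≤ 1) →
      ∃ F : StrongDual 𝕜 (FreeSp 𝕜 M o), ‖F‖ ≤ 5 ∧
        ∀ j, F (el 𝕜 o (A (q (ψ j)).1) (c (q (ψ j)).1)) =
          ∑ i ∈ Finset.range (j + 1), τ i * w (ψ j) (ψ i) := by
    intro ψ hψ τ hτ
    exact humps (fun j => A (q (ψ j)).1) (fun j => c (q (ψ j)).1) (fun j => f (q (ψ j)).1)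
      (fun j => h0 _) (fun j => hL _) (fun j => (q (ψ j)).2.1) (fun j => (q (ψ j)).2.2)
      (fun n => (hP _).1) (fun n => (hP _).2.1) (fun n => (hP _).2.2.1)
      (fun i j hij => (hr _ _ (hψ hij)).2) τ hτ
  have hC : ∀ l, ∀ S : Finset ℕ, (∀ k ∈ S, k < l) → ∑ k ∈ S, ‖w l k‖ ≤ 5 * B := by
    intro l S hS
    choose u hu1 hu2 using fun i => RCLike.exists_norm_eq_mul_self (w l i)
    let τ : ℕ → 𝕜 := fun i => if i ∈ S then u i else 0
    obtain ⟨F, hF, hFe⟩ := hB' id strictMono_id τ (by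
      intro i
      simp only [τ]
      split_ifs
      · exact (hu1 i).le
      · rw [norm_zero]; exact zero_le_one)
    have h1 : F (el 𝕜 o (A (q l).1) (c (q l).1)) = ((∑ k ∈ S, ‖w l k‖ : ℝ) : 𝕜) := by
      have h2 := hFe l
      simp only [id] at h2
      rw [h2]
      push_cast
      rw [← Finset.sum_subset (s₁ := S)]
      · refine Finset.sum_congr rfl fun i hi => ?_
        simp only [τ, if_pos hi]
        exact (hu2 i).symm
      · intro i hi
        exact Finset.mem_range.2 (lt_trans (hS i hi) (Nat.lt_succ_self _))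
      · intro i _ hi
        simp only [τ, if_neg hi, zero_mul]
    have h3 : ‖F (el 𝕜 o (A (q l).1) (c (q l).1))‖ = ∑ k ∈ S, ‖w l k‖ := by
      rw [h1, RCLike.norm_ofReal, abs_of_nonneg (Finset.sum_nonneg fun _ _ => norm_nonneg _)]
    rw [← h3]
    have hB0 : 0 ≤ B := (norm_nonneg _).trans (hB 0)
    exact (F.le_opNorm _).trans (mul_le_mul hF (hB _) (norm_nonneg _) (by norm_num))
  obtain ⟨ψ, hψ, hsel⟩ := sel (fun l k => ‖w l k‖) (fun _ _ => norm_nonneg _) _ hC hε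
  refine ⟨fun j => (q (ψ j)).1, fun i j hij => (hr _ _ (hψ hij)).1,
    fun j => ‖w (ψ j) (ψ j)‖ / 5, fun j => ?_, fun σ hσ => ?_⟩
  · have := hws (ψ j)
    linarith
  · choose u hu1 hu2 using fun j => RCLike.exists_norm_eq_mul_self (w (ψ j) (ψ j))
    obtain ⟨F, hF, hFe⟩ := hB' ψ hψ (fun j => σ j * u j) (by
      intro j
      rw [norm_mul, hu1, mul_one]
      exact hσ j)
    refine ⟨((1 / 5 : ℝ) : 𝕜) • F, ?_, fun j => ?_⟩
    · rw [norm_smul, RCLike.norm_ofReal, abs_of_pos (by norm_num)]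
      linarith
    · have h1 : (((1 / 5 : ℝ) : 𝕜) • F) (el 𝕜 o (A (q (ψ j)).1) (c (q (ψ j)).1)) -
          σ j * ((‖w (ψ j) (ψ j)‖ / 5 : ℝ) : 𝕜) =
          ((1 / 5 : ℝ) : 𝕜) * ∑ i ∈ Finset.range j, σ i * u i * w (ψ j) (ψ i) := by
        rw [smul_apply, hFe, Finset.sum_range_succ, smul_eq_mul]
        have h2 := hu2 j
        push_cast
        linear_combination (-(σ j) / 5) * h2
      rw [h1, norm_mul, RCLike.norm_ofReal, abs_of_pos (by norm_num)]
      have h2 : ‖∑ i ∈ Finset.range j, σ i * u i * w (ψ j) (ψ i)‖ ≤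
          ∑ i ∈ Finset.range j, ‖w (ψ j) (ψ i)‖ := by
        refine norm_sum_le_of_le _ fun i _ => ?_
        rw [norm_mul, norm_mul, hu1, mul_one]
        exact mul_le_of_le_one_left (norm_nonneg _) (hσ i)
      have h3 := hsel j
      linarith

open Classical in
/-- **The main gliding hump.** Finitely supported elements `y_k` of the free space of a uniformly
separated space, normed up to `s` by functions which vanish on the supports of the previous
elements, have a subsequence which is equivalent to the unit vector basis of `ℓ_1`, with a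
constant which depends only on `s`. -/
theorem main_sl {θ : ℝ} (hθ : 0 < θ) (hsep : ∀ x y : M, x ≠ y → θ ≤ dist x y)
    (A : ℕ → Finset M) (hA : ∀ k, o ∉ A k) (c : ℕ → M → 𝕜) {B : ℝ}
    (hB : ∀ k, ‖el 𝕜 o (A k) (c k)‖ ≤ B)
    (f : ℕ → M → 𝕜) (h0 : ∀ k, f k o = 0) (hL : ∀ k x y, ‖f k x - f k y‖ ≤ dist x y)
    (hz : ∀ j k, j < k → ∀ b ∈ A j, f k b = 0)
    {s : ℝ} (hs0 : 0 ≤ s) (hs : ∀ k, s ≤ ‖∑ b ∈ A k, c k b * f k b‖) {ε : ℝ} (hε : 0 < ε) :
    ∃ φ : ℕ → ℕ, StrictMono φ ∧ ∃ γ : ℕ → ℝ, (∀ i, s ≤ 60 * γ i) ∧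
      ∀ σ : ℕ → 𝕜, (∀ i, ‖σ i‖ ≤ 1) → ∃ F : StrongDual 𝕜 (FreeSp 𝕜 M o), ‖F‖ ≤ 1 ∧
        ∀ i, ‖F (el 𝕜 o (A (φ i)) (c (φ i))) - σ i * (γ i : 𝕜)‖ ≤ ε := by
  by_cases hcase : ∃ R : ℝ, 0 < R ∧ ∃ᶠ k in atTop,
      s / 2 ≤ ‖∑ b ∈ A k, c k b * ((cut o R b : 𝕜) * f k b)‖
  · obtain ⟨R, hR, hfr⟩ := hcase
    obtain ⟨φ₀, hφ₀, hφs⟩ := Filter.extraction_of_frequently_atTop hfr
    have hfo : ∀ k x, ‖f k x‖ ≤ dist x o := by
      intro k x
      have := hL k x o
      rwa [h0, sub_zero] at this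
    let g : ℕ → M → 𝕜 := fun n x => ((1 / 3 : ℝ) : 𝕜) * ((cut o R x : 𝕜) * f (φ₀ n) x)
    have hg0 : ∀ n, g n o = 0 := by
      intro n
      simp only [g, h0, mul_zero]
    have hgL : ∀ n x y, ‖g n x - g n y‖ ≤ dist x y := by
      intro n x y
      have h1 := mul_cut (L := 1) hR (f (φ₀ n)) (by simpa using hL (φ₀ n)) (hfo _)
        (fun x => cut o R x) (cut_nonneg R) (cut_le_one R) (cut_sub hR)
        (fun x y hx hy => by rw [cut_zero hR hx, cut_zero hR hy]) x y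
      simp only [g]
      rw [← mul_sub, norm_mul, RCLike.norm_ofReal, abs_of_pos (by norm_num)]
      linarith
    have hgz : ∀ j k, j < k → ∀ b ∈ A (φ₀ j), g k b = 0 := by
      intro j k hjk b hb
      simp only [g, hz _ _ (hφ₀ hjk) b hb, mul_zero]
    have hgH : ∀ k x, ‖g k x‖ ≤ 2 * R := by
      intro k x
      simp only [g]
      rw [norm_mul, norm_mul, RCLike.norm_ofReal, RCLike.norm_ofReal, abs_of_pos (by norm_num),
        abs_of_nonneg (cut_nonneg _ _)]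
      rcases le_total (2 * R) (dist x o) with h | h
      · rw [cut_zero hR h, zero_mul, mul_zero]
        positivity
      · have h1 : cut o R x * ‖f (φ₀ k) x‖ ≤ 2 * R :=
          (mul_le_of_le_one_left (norm_nonneg _) (cut_le_one _ _)).trans ((hfo _ x).trans h)
        have h2 : 0 ≤ cut o R x * ‖f (φ₀ k) x‖ :=
          mul_nonneg (cut_nonneg _ _) (norm_nonneg _)
        linarith
    obtain ⟨φ₁, hφ₁, hφ⟩ := bdd hθ hsep (fun n => A (φ₀ n)) (fun n => hA _)
      (fun n => c (φ₀ n)) (fun n => hB _) g hg0 hgL hgz hgH hε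
    let w : ℕ → 𝕜 := fun i => ∑ b ∈ A (φ₀ (φ₁ i)), c (φ₀ (φ₁ i)) b * g (φ₁ i) b
    have hw : ∀ i, s ≤ 6 * ‖w i‖ := by
      intro i
      have h1 : w i = ((1 / 3 : ℝ) : 𝕜) * ∑ b ∈ A (φ₀ (φ₁ i)),
          c (φ₀ (φ₁ i)) b * ((cut o R b : 𝕜) * f (φ₀ (φ₁ i)) b) := by
        simp only [w, g]
        rw [Finset.mul_sum]
        exact Finset.sum_congr rfl fun b _ => by ring
      rw [h1, norm_mul, RCLike.norm_ofReal, abs_of_pos (by norm_num)]
      have := hφs (φ₁ i)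
      linarith
    choose u hu1 hu2 using fun j => RCLike.exists_norm_eq_mul_self (w j)
    refine ⟨fun i => φ₀ (φ₁ i), hφ₀.comp hφ₁, fun i => ‖w i‖ / 10, fun i => ?_,
      fun σ hσ => ?_⟩
    · have := hw i
      linarith
    · obtain ⟨G, hG0, hGL, hG⟩ := hφ (fun i => σ i * u i) (by
        intro i
        rw [norm_mul, hu1, mul_one]
        exact hσ i)
      obtain ⟨F, hF, hFG⟩ := exists_functional (o := o) G hG0 10 (by norm_num) hGL
      refine ⟨((1 / 10 : ℝ) : 𝕜) • F, ?_, fun i => ?_⟩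
      · rw [norm_smul, RCLike.norm_ofReal, abs_of_pos (by norm_num)]
        linarith
      · have h1 : (((1 / 10 : ℝ) : 𝕜) • F) (el 𝕜 o (A (φ₀ (φ₁ i))) (c (φ₀ (φ₁ i)))) -
            σ i * ((‖w i‖ / 10 : ℝ) : 𝕜) = ((1 / 10 : ℝ) : 𝕜) *
            (∑ b ∈ A (φ₀ (φ₁ i)), c (φ₀ (φ₁ i)) b * G b - σ i * u i * w i) := by
          rw [smul_apply, map_el, smul_eq_mul]
          have h2 := hu2 i
          have h3 : ∑ b ∈ A (φ₀ (φ₁ i)), c (φ₀ (φ₁ i)) b * F (dl 𝕜 o b) =
              ∑ b ∈ A (φ₀ (φ₁ i)), c (φ₀ (φ₁ i)) b * G b :=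
            Finset.sum_congr rfl fun b _ => by rw [hFG]
          rw [h3]
          push_cast
          linear_combination (-(σ i) / 10) * h2
        rw [h1, norm_mul, RCLike.norm_ofReal, abs_of_pos (by norm_num)]
        have h2 := hG i
        have h3 : ‖∑ b ∈ A (φ₀ (φ₁ i)), c (φ₀ (φ₁ i)) b * G b - σ i * u i * w i‖ ≤ ε := h2
        linarith
  · push Not at hcase
    obtain ⟨φ, hφ, γ, hγ, h⟩ := unb A c hB f h0 hL (s := s / 2) (fun R hR => by
      have h1 := hcase R hR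
      filter_upwards [h1] with k hk
      have h2 : ∑ b ∈ A k, c k b * f k b = ∑ b ∈ A k, c k b * ((cut o R b : 𝕜) * f k b) +
          ∑ b ∈ A k, c k b * (((1 - cut o R b : ℝ) : 𝕜) * f k b) := by
        rw [← Finset.sum_add_distrib]
        refine Finset.sum_congr rfl fun b _ => ?_
        push_cast
        ring
      have h3 := hs k
      rw [h2] at h3
      have h4 := norm_add_le (∑ b ∈ A k, c k b * ((cut o R b : 𝕜) * f k b))
        (∑ b ∈ A k, c k b * (((1 - cut o R b : ℝ) : 𝕜) * f k b))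
      linarith) hε
    refine ⟨φ, hφ, γ, fun i => ?_, h⟩
    have h1 := hγ i
    linarith

end Pool.Agent.U559.QS
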